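import Pool.Agent.R666.PS.Stms

/-! PS-1: two pop stacks cannot hold three pairwise separated waiting values. -/

namespace PopSt

namespace P1

theorem no_two_orders {a b : ℕ} (hab : a ≠ b) :
    ∀ p : List ℕ, p.Nodup → [a, b].Sublist p → [b, a].Sublist p → False := by
  intro p
  induction p with
  | nil => intro _ h _; simp at h
  | cons c p ih =>
    intro hn h1 h2
    rw [List.nodup_cons] at hn
    obtain ⟨hc, hn⟩ := hn
    rw [List.cons_sublist_cons'] at h1 h2
    rcases h1 with h1 | ⟨rfl, h1⟩
    · rcases h2 with h2 | ⟨rfl, h2⟩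
      · exact ih hn h1 h2
      · exact hc (h1.subset (by simp))
    · rcases h2 with h2 | ⟨h3, h2⟩
      · exact hc (h2.subset (by simp))
      · exact hab h3.symm

theorem infix_range {n : ℕ} {s : List ℕ} (h : s <:+: List.range n) :
    ∃ x, s = List.range' x s.length := by
  obtain ⟨a, b, hab⟩ := h
  refine ⟨a.length, ?_⟩
  apply List.ext_getElem
  · simp
  · intro i h1 h2
    rw [List.getElem_range']
    have h3 : a.length + i < (a ++ s ++ b).length := by
      simp only [List.length_append]; omega
    have h4 : (a ++ s ++ b)[a.length + i] = s[i] := by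
      rw [List.getElem_append_left (by simp only [List.length_append]; omega),
        List.getElem_append_right (by omega)]
      simp
    rw [← h4]
    have h5 : (a ++ s ++ b)[a.length + i] = (List.range n)[a.length + i]'(by rw [← hab]; exact h3) := by
      congr 1
    rw [h5, List.getElem_range]
    omega

theorem pair_sublist_range' {x k z : ℕ} (h1 : x ≤ z) (h2 : z + 1 < x + k) :
    [z, z + 1].Sublist (List.range' x k) := by
  obtain ⟨d, rfl⟩ := Nat.exists_eq_add_of_le h1
  obtain ⟨e, rfl⟩ : ∃ e, k = d + (e + 2) := ⟨k - d - 2, by omega⟩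
  rw [← List.range'_append_1]
  refine List.Sublist.trans ?_ (List.sublist_append_right _ _)
  rw [show e + 2 = (e + 1) + 1 from rfl, List.range'_succ, List.range'_succ]
  exact List.Sublist.cons_cons _ (List.Sublist.cons_cons _ (List.nil_sublist _))

theorem same_stack {n : ℕ} {p s : List ℕ} (hp : p.Nodup) (hs : s <:+: List.range n)
    (hsp : s.reverse.Sublist p) {w w' : ℕ} (hw : w ∈ s) (hw' : w' ∈ s) 
    (hsep : Sep p w w') : False := by
  obtain ⟨x, hx⟩ := infix_range hs
  have hmem : ∀ v, v ∈ s ↔ x ≤ v ∧ v < x + s.length := by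
    intro v
    rw [hx, List.mem_range'_1]
    simp
  rcases hsep with ⟨y, hy, h1, h2⟩ | ⟨z, h1, h2, h3⟩
  · apply hy
    apply hsp.subset
    rw [List.mem_reverse, hmem]
    have := (hmem w).1 hw
    have := (hmem w').1 hw'
    omega
  · have a1 := (hmem w).1 hw
    have a2 := (hmem w').1 hw'
    have h4 : [z, z + 1].Sublist s := by
      rw [hx]
      exact pair_sublist_range' (by omega) (by omega)
    have h5 : [z + 1, z].Sublist p := by
      refine List.Sublist.trans ?_ hsp
      have := List.Sublist.reverse h4
      simpa using this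
    exact no_two_orders (by omega) p hp h3 h5

/-- forward invariant -/
def Fwd (l : List ℕ) (M : Mach) : Prop :=
  ∃ read, l = read ++ M.inp ∧ (∀ v ∈ read, v ∈ M.out ∨ v ∈ M.s1 ∨ v ∈ M.s2) ∧
    M.s1.reverse.Sublist read ∧ M.s2.reverse.Sublist read ∧ (∀ v ∈ M.out, v ∈ read)

theorem fwd_step {l : List ℕ} {M M' : Mach} (h : Op M M') (hM : Fwd l M) : Fwd l M' := by
  obtain ⟨read, h1, h2, h3, h4, h5⟩ := hM
  cases h with
  | bypass v inp s1 s2 out =>
    refine ⟨read ++ [v], by simpa using h1, ?_, ?_, ?_, ?_⟩
    · intro w hw
      rw [List.mem_append, List.mem_singleton] at hw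
      rcases hw with hw | rfl
      · rcases h2 w hw with h | h | h
        · exact Or.inl (List.mem_append_left _ h)
        · exact Or.inr (Or.inl h)
        · exact Or.inr (Or.inr h)
      · exact Or.inl (by simp)
    · exact h3.trans (List.sublist_append_left _ _)
    · exact h4.trans (List.sublist_append_left _ _)
    · intro w hw
      simp only [List.mem_append, List.mem_singleton] at hw ⊢
      rcases hw with hw | rfl
      · exact Or.inl (h5 w hw)
      · exact Or.inr rfl
  | push1 v inp s1 s2 out =>
    refine ⟨read ++ [v], by simpa using h1, ?_, ?_, ?_, ?_⟩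
    · intro w hw
      rw [List.mem_append, List.mem_singleton] at hw
      rcases hw with hw | rfl
      · rcases h2 w hw with h | h | h
        · exact Or.inl h
        · exact Or.inr (Or.inl (List.mem_cons_of_mem _ h))
        · exact Or.inr (Or.inr h)
      · exact Or.inr (Or.inl (by simp))
    · simp only [List.reverse_cons]
      exact List.Sublist.append h3 (List.Sublist.refl _)
    · exact h4.trans (List.sublist_append_left _ _)
    · intro w hw
      exact List.mem_append_left _ (h5 w hw)
  | push2 v inp s1 s2 out =>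
    refine ⟨read ++ [v], by simpa using h1, ?_, ?_, ?_, ?_⟩
    · intro w hw
      rw [List.mem_append, List.mem_singleton] at hw
      rcases hw with hw | rfl
      · rcases h2 w hw with h | h | h
        · exact Or.inl h
        · exact Or.inr (Or.inl h)
        · exact Or.inr (Or.inr (List.mem_cons_of_mem _ h))
      · exact Or.inr (Or.inr (by simp))
    · exact h3.trans (List.sublist_append_left _ _)
    · simp only [List.reverse_cons]
      exact List.Sublist.append h4 (List.Sublist.refl _)
    · intro w hw
      exact List.mem_append_left _ (h5 w hw)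
  | pop1 inp s1 s2 out =>
    refine ⟨read, h1, ?_, by simp, h4, ?_⟩
    · intro w hw
      rcases h2 w hw with h | h | h
      · exact Or.inl (List.mem_append_left _ h)
      · exact Or.inl (List.mem_append_right _ h)
      · exact Or.inr (Or.inr h)
    · intro w hw
      simp only [List.mem_append] at hw
      rcases hw with hw | hw
      · exact h5 w hw
      · exact h3.subset (List.mem_reverse.2 hw)
  | pop2 inp s1 s2 out =>
    refine ⟨read, h1, ?_, h3, by simp, ?_⟩
    · intro w hw
      rcases h2 w hw with h | h | h
      · exact Or.inl (List.mem_append_left _ h)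
      · exact Or.inr (Or.inl h)
      · exact Or.inl (List.mem_append_right _ h)
    · intro w hw
      simp only [List.mem_append] at hw
      rcases hw with hw | hw
      · exact h5 w hw
      · exact h4.subset (List.mem_reverse.2 hw)

/-- backward invariant -/
def Bwd (n : ℕ) (M : Mach) : Prop :=
  M.out <+: List.range n ∧ M.s1 <:+: List.range n ∧ M.s2 <:+: List.range n

theorem bwd_step {n : ℕ} {M M' : Mach} (h : Op M M') (hM : Bwd n M') : Bwd n M := by
  obtain ⟨h1, h2, h3⟩ := hM
  cases h with
  | bypass v inp s1 s2 out => exact ⟨(List.prefix_append _ _).trans h1, h2, h3⟩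
  | push1 v inp s1 s2 out =>
    exact ⟨h1, ((List.suffix_cons v s1).isInfix).trans h2, h3⟩
  | push2 v inp s1 s2 out =>
    exact ⟨h1, h2, ((List.suffix_cons v s2).isInfix).trans h3⟩
  | pop1 inp s1 s2 out =>
    exact ⟨(List.prefix_append _ _).trans h1,
      ((List.suffix_append out s1).isInfix).trans h1.isInfix, h3⟩
  | pop2 inp s1 s2 out =>
    exact ⟨(List.prefix_append _ _).trans h1, h2,
      ((List.suffix_append out s2).isInfix).trans h1.isInfix⟩

theorem exists_conf {n : ℕ} {rest : List ℕ} {M : Mach}
    (h : Relation.ReflTransGen Op M ⟨[], [], [], List.range n⟩) (hr : rest <:+ M.inp) :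
    ∃ M', Relation.ReflTransGen Op M M' ∧
      Relation.ReflTransGen Op M' ⟨[], [], [], List.range n⟩ ∧ M'.inp = rest := by
  induction h using Relation.ReflTransGen.head_induction_on with
  | refl =>
    refine ⟨_, Relation.ReflTransGen.refl, Relation.ReflTransGen.refl, ?_⟩
    have : rest = [] := List.eq_nil_of_suffix_nil hr
    rw [this]
  | head hop hrest ih =>
    rename_i A B
    by_cases hA : A.inp = rest
    · exact ⟨A, Relation.ReflTransGen.refl, Relation.ReflTransGen.head hop hrest, hA⟩
    · have hB : rest <:+ B.inp := by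
        cases hop with
        | bypass v inp s1 s2 out =>
          rcases List.suffix_cons_iff.1 hr with h | h
          · exact absurd h.symm hA
          · exact h
        | push1 v inp s1 s2 out =>
          rcases List.suffix_cons_iff.1 hr with h | h
          · exact absurd h.symm hA
          · exact h
        | push2 v inp s1 s2 out =>
          rcases List.suffix_cons_iff.1 hr with h | h
          · exact absurd h.symm hA
          · exact h
        | pop1 => exact hr
        | pop2 => exact hr
      obtain ⟨M', k1, k2, k3⟩ := ih hB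
      exact ⟨M', Relation.ReflTransGen.head hop k1, k2, k3⟩

theorem prefix_range_mem {n : ℕ} {o : List ℕ} (h : o <+: List.range n) {u w : ℕ} (hw : w ∈ o)
    (huw : u < w) : u ∈ o := by
  rw [List.prefix_iff_eq_take, List.take_range] at h
  rw [h, List.mem_range] at hw ⊢
  omega

theorem sep_left {p : List ℕ} {w1 w2 w3 : ℕ} (h : Sep p w1 w2) (h23 : w2 < w3) : Sep p w1 w3 := by
  rcases h with ⟨x, h1, h2, h3⟩ | ⟨z, h1, h2, h3⟩
  · exact Or.inl ⟨x, h1, h2, by omega⟩
  · exact Or.inr ⟨z, h1, by omega, h3⟩

end P1

open P1 in
theorem noThree : NoThreeStm := by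
  intro n p rest hperm hsort u w1 w2 w3 hu hu1 h12 h23 hw1 hw2 hw3 s12 s23
  have hnd : (p ++ rest).Nodup := hperm.nodup_iff.2 List.nodup_range
  have hpnd : p.Nodup := hnd.of_append_left
  obtain ⟨M, k1, k2, k3⟩ := exists_conf (rest := rest) hsort (List.suffix_append _ _)
  have hF : Fwd (p ++ rest) M := by
    have h0 : Fwd (p ++ rest) ⟨p ++ rest, [], [], []⟩ :=
      ⟨[], by simp, by simp, by simp, by simp, by simp⟩
    clear k2 k3
    induction k1 with
    | refl => exact h0
    | tail _ hop ih => exact fwd_step hop ih
  have hB : Bwd n M := by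
    clear k1 k3 hF
    induction k2 using Relation.ReflTransGen.head_induction_on with
    | refl =>
      exact ⟨List.prefix_refl _, (List.nil_prefix).isInfix, (List.nil_prefix).isInfix⟩
    | head hop _ ih => exact bwd_step hop ih
  obtain ⟨read, f1, f2, f3, f4, f5⟩ := hF
  obtain ⟨b1, b2, b3⟩ := hB
  have hread : read = p := by
    rw [k3] at f1
    exact (List.append_cancel_right f1).symm
  subst hread
  have hout : ∀ w, u < w → w ∉ M.out := fun w hw hwo =>
    hu (f5 u (prefix_range_mem b1 hwo hw))
  have s13 : Sep read w1 w3 := sep_left s12 h23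
  have m1 : w1 ∈ M.s1 ∨ w1 ∈ M.s2 := (f2 w1 hw1).resolve_left (hout w1 hu1)
  have m2 : w2 ∈ M.s1 ∨ w2 ∈ M.s2 := (f2 w2 hw2).resolve_left (hout w2 (by omega))
  have m3 : w3 ∈ M.s1 ∨ w3 ∈ M.s2 := (f2 w3 hw3).resolve_left (hout w3 (by omega))
  rcases m1 with m1 | m1 <;> rcases m2 with m2 | m2 <;> rcases m3 with m3 | m3
  · exact same_stack hpnd b2 f3 m1 m2 s12
  · exact same_stack hpnd b2 f3 m1 m2 s12
  · exact same_stack hpnd b2 f3 m1 m3 s13
  · exact same_stack hpnd b3 f4 m2 m3 s23
  · exact same_stack hpnd b2 f3 m2 m3 s23
  · exact same_stack hpnd b3 f4 m1 m3 s13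
  · exact same_stack hpnd b3 f4 m1 m2 s12
  · exact same_stack hpnd b3 f4 m1 m2 s12

end PopSt
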