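import Pool.Agent.R666.PS.Stms

/-! PS-10: finiteness and the transition recurrences of the counting function. -/

namespace PopSt

open St

namespace P10

/-- number of unread values -/
def mu : St → ℕ
  | A _ _ g _ h => g + h
  | T _ _ g _ k _ h => g + k + h
  | B _ _ g _ k _ => g + k
  | Z _ => 1
  | D => 0

/-- an upper bound for the unread values -/
def bnd : St → ℕ
  | A _ m g r h => m + g + r + h
  | T _ m g r k t h => m + g + r + k + t + h
  | B _ m g r k t => m + g + r + k + t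
  | Z v => v + 1
  | D => 0

lemma step_mu {s s' : St} {v : ℕ} (h : Step s v s') : mu s = mu s' + 1 ∧ v < bnd s ∧ bnd s' ≤ bnd s := by
  cases h <;> refine ⟨?_, ?_, ?_⟩ <;> simp only [mu, bnd] <;> omega

lemma acc_mu {s : St} {l : List ℕ} (h : Acc s l) : l.length = mu s ∧ ∀ v ∈ l, v < bnd s := by
  induction h with
  | nil => exact ⟨rfl, by simp⟩
  | cons h h' ih =>
    have h1 := step_mu h
    refine ⟨?_, ?_⟩
    · rw [List.length_cons, ih.1, h1.1]
    · intro w hw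
      rw [List.mem_cons] at hw
      rcases hw with rfl | hw
      · exact h1.2.1
      · exact lt_of_lt_of_le (ih.2 w hw) h1.2.2

lemma finite_bounded (n b : ℕ) : {l : List ℕ | l.length = n ∧ ∀ v ∈ l, v < b}.Finite := by
  refine ((List.finite_length_eq (Fin b) n).image (List.map Fin.val)).subset ?_
  rintro l ⟨h1, h2⟩
  refine ⟨l.pmap (fun v hv => (⟨v, hv⟩ : Fin b)) h2, ?_, ?_⟩
  · simp [h1]
  · rw [List.map_pmap]
    simp

end P10

open P10

theorem finiteStm : FiniteStm := by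
  intro s
  exact (finite_bounded (mu s) (bnd s)).subset fun l hl => acc_mu hl

namespace P10

lemma one (v : ℕ) (s' : St) : {l | ∃ l', l = v :: l' ∧ Acc s' l'}.ncard = cnt s' := by
  have : {l | ∃ l', l = v :: l' ∧ Acc s' l'} = (fun l' => v :: l') '' {l | Acc s' l} := by
    ext l
    constructor
    · rintro ⟨l', rfl, h⟩
      exact ⟨l', h, rfl⟩
    · rintro ⟨l', h, rfl⟩
      exact ⟨l', rfl, h⟩
  rw [this, Set.ncard_image_of_injective _ (List.cons_injective)]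
  rfl

lemma one_fin (v : ℕ) (s' : St) : {l | ∃ l', l = v :: l' ∧ Acc s' l'}.Finite := by
  have : {l | ∃ l', l = v :: l' ∧ Acc s' l'} = (fun l' => v :: l') '' {l | Acc s' l} := by
    ext l
    constructor
    · rintro ⟨l', rfl, h⟩
      exact ⟨l', h, rfl⟩
    · rintro ⟨l', h, rfl⟩
      exact ⟨l', rfl, h⟩
  rw [this]
  exact (finiteStm s').image _

lemma grd (P : Prop) [Decidable P] (S : Set (List ℕ)) :
    {l | P ∧ l ∈ S}.ncard = if P then S.ncard else 0 := by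
  by_cases h : P <;> simp [h]

lemma shl (g : ℕ) (F : ℕ → Set (List ℕ)) :
    {l | ∃ g', g = g' + 1 ∧ l ∈ F g'}.ncard = sh (fun g' => (F g').ncard) g := by
  cases g with
  | zero => simp [sh]
  | succ g =>
    have : {l | ∃ g', g + 1 = g' + 1 ∧ l ∈ F g'} = F g := by
      ext l
      constructor
      · rintro ⟨g', h1, h2⟩
        have : g = g' := by omega
        rwa [this]
      · intro h
        exact ⟨g, rfl, h⟩
    rw [this]
    rfl

lemma multi {ι : Type} (F : Finset ι) (v : ι → ℕ) (t : ι → St)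
    (hv : ∀ p ∈ F, ∀ p' ∈ F, v p = v p' → p = p') :
    {l | ∃ p ∈ F, ∃ l', l = v p :: l' ∧ Acc (t p) l'}.ncard = ∑ p ∈ F, cnt (t p) := by
  classical
  induction F using Finset.induction_on with
  | empty => simp
  | insert a F ha ih =>
    have h1 : {l | ∃ p ∈ insert a F, ∃ l', l = v p :: l' ∧ Acc (t p) l'} =
        {l | ∃ l', l = v a :: l' ∧ Acc (t a) l'} ∪
        {l | ∃ p ∈ F, ∃ l', l = v p :: l' ∧ Acc (t p) l'} := by
      ext l
      constructor
      · rintro ⟨p, hp, h⟩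
        rcases Finset.mem_insert.mp hp with rfl | hp
        · exact Or.inl h
        · exact Or.inr ⟨p, hp, h⟩
      · rintro (h | ⟨p, hp, h⟩)
        · exact ⟨a, Finset.mem_insert_self _ _, h⟩
        · exact ⟨p, Finset.mem_insert_of_mem hp, h⟩
    have hfin : {l | ∃ p ∈ F, ∃ l', l = v p :: l' ∧ Acc (t p) l'}.Finite := by
      have : {l | ∃ p ∈ F, ∃ l', l = v p :: l' ∧ Acc (t p) l'} =
          ⋃ p ∈ F, {l | ∃ l', l = v p :: l' ∧ Acc (t p) l'} := by
        ext l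
        simp
      rw [this]
      exact Set.Finite.biUnion F.finite_toSet fun p _ => one_fin _ _
    rw [h1, Set.ncard_union_eq _ (one_fin _ _) hfin, one, Finset.sum_insert ha,
      ih (fun p hp p' hp' => hv p (Finset.mem_insert_of_mem hp) p' (Finset.mem_insert_of_mem hp'))]
    rw [Set.disjoint_left]
    rintro l ⟨l', rfl, _⟩ ⟨p, hp, l'', h2, _⟩
    have h3 : v a = v p := (List.cons.inj h2).1
    have := hv a (Finset.mem_insert_self _ _) p (Finset.mem_insert_of_mem hp) h3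
    exact ha (this ▸ hp)

lemma acc_Z (v : ℕ) (l : List ℕ) : Acc (Z v) l ↔ l = [v] := by
  constructor
  · intro h
    cases h with
    | cons h h' =>
      cases h
      cases h' with
      | nil => rfl
      | cons h _ => cases h
  · rintro rfl
    exact Acc.cons (Step.Zz v) Acc.nil

/-- words by first letter -/
abbrev W (v : ℕ) (s : St) : Set (List ℕ) := {l | ∃ l', l = v :: l' ∧ Acc s l'}

lemma W_Z_card (v w : ℕ) : (W v (Z w)).ncard = 1 := by
  have : W v (Z w) = {[v, w]} := by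
    ext l
    constructor
    · rintro ⟨l', rfl, h⟩
      rw [(acc_Z _ _).mp h]
      rfl
    · rintro rfl
      exact ⟨[w], rfl, (acc_Z _ _).mpr rfl⟩
  rw [this, Set.ncard_singleton]

end P10

theorem recA_cnt : RecA cnt := by
  intro q m g r h
  set S1 : Set (List ℕ) := {l | q ≠ Q.o ∧ l ∈ {l | ∃ g', g = g' + 1 ∧
    l ∈ W m (A Q.o (m + 1) (g' + 1) r (h + 1))}} with hS1
  set S2 : Set (List ℕ) := {l | (q ≠ Q.a1 ∧ q ≠ Q.a2) ∧ l ∈ {l | ∃ g', g = g' + 1 ∧
    l ∈ W (m + g' + 1) (A Q.a2 m (g' + 1) (r + 1) (h + 1))}} with hS2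
  set S3 : Set (List ℕ) := {l | ∃ g', g = g' + 1 ∧ l ∈ {l | ∃ d, g' = d + 1 ∧
    l ∈ {l | ∃ p ∈ Finset.HasAntidiagonal.antidiagonal d, ∃ l', l = (m + p.1 + 1) :: l' ∧
      Acc (T Q.a1 m (p.1 + 1) 1 (p.2 + 1) r (h + 1)) l'}}} with hS3
  set S4 : Set (List ℕ) := {l | ∃ h', h = h' + 1 ∧ l ∈ {l | ∃ d, h' = d + 1 ∧
    l ∈ {l | ∃ p ∈ Finset.HasAntidiagonal.antidiagonal d, ∃ l',
      l = (m + (g + 1) + r + p.1 + 1) :: l' ∧
      Acc (T Q.x m (g + 1) r (p.1 + 1) 1 (p.2 + 1)) l'}}} with hS4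
  set S5 : Set (List ℕ) := {l | ∃ h', h = h' + 1 ∧
    l ∈ W (m + (g + 1) + r + h' + 1) (B Q.x m (g + 1) r (h' + 1) 1)} with hS5
  set S6 : Set (List ℕ) := {l | (g = 0 ∧ h = 0 ∧ q ≠ Q.a1) ∧ l ∈ W (m + 1 + r) (Z m)} with hS6
  have hU : {l | Acc (A q m (g + 1) r (h + 1)) l} = S1 ∪ (S2 ∪ (S3 ∪ (S4 ∪ (S5 ∪ S6)))) := by
    ext l
    constructor
    · intro hl
      cases hl with
      | cons hs ha =>
        cases hs with
        | Al _ _ g' _ _ hq => exact Or.inl ⟨hq, g', rfl, _, rfl, ha⟩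
        | Ar _ _ g' _ _ hq hq' => exact Or.inr (Or.inl ⟨⟨hq, hq'⟩, g', rfl, _, rfl, ha⟩)
        | Am _ _ u k _ _ =>
          exact Or.inr (Or.inr (Or.inl ⟨u + k + 1, rfl, u + k, rfl, (u, k),
            Finset.HasAntidiagonal.mem_antidiagonal.mpr rfl, _, rfl, ha⟩))
        | An _ _ _ _ u k =>
          exact Or.inr (Or.inr (Or.inr (Or.inl ⟨u + k + 1, rfl, u + k, rfl, (u, k),
            Finset.HasAntidiagonal.mem_antidiagonal.mpr rfl, _, rfl, ha⟩)))
        | At _ _ _ _ h' =>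
          exact Or.inr (Or.inr (Or.inr (Or.inr (Or.inl ⟨h', rfl, _, rfl, ha⟩))))
        | Af _ _ _ hq =>
          exact Or.inr (Or.inr (Or.inr (Or.inr (Or.inr ⟨⟨rfl, rfl, hq⟩, _, rfl, ha⟩))))
    · rintro (⟨hq, g', rfl, l', rfl, ha⟩ | ⟨⟨hq, hq'⟩, g', rfl, l', rfl, ha⟩ |
        ⟨g', rfl, d, rfl, p, hp, l', rfl, ha⟩ | ⟨h', rfl, d, rfl, p, hp, l', rfl, ha⟩ |
        ⟨h', rfl, l', rfl, ha⟩ | ⟨⟨rfl, rfl, hq⟩, l', rfl, ha⟩)
      · exact Acc.cons (Step.Al q m g' r (h + 1) hq) ha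
      · exact Acc.cons (Step.Ar q m g' r (h + 1) hq hq') ha
      · have hp' := Finset.HasAntidiagonal.mem_antidiagonal.mp hp
        subst hp'
        exact Acc.cons (Step.Am q m p.1 p.2 r (h + 1)) ha
      · have hp' := Finset.HasAntidiagonal.mem_antidiagonal.mp hp
        subst hp'
        exact Acc.cons (Step.An q m (g + 1) r p.1 p.2) ha
      · exact Acc.cons (Step.At q m (g + 1) r h') ha
      · exact Acc.cons (Step.Af q m r hq) ha
  have hfin := finiteStm (A q m (g + 1) r (h + 1))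
  rw [hU] at hfin
  have f1 := hfin.subset Set.subset_union_left
  have f1' := hfin.subset Set.subset_union_right
  have f2 := f1'.subset Set.subset_union_left
  have f2' := f1'.subset Set.subset_union_right
  have f3 := f2'.subset Set.subset_union_left
  have f3' := f2'.subset Set.subset_union_right
  have f4 := f3'.subset Set.subset_union_left
  have f4' := f3'.subset Set.subset_union_right
  have f5 := f4'.subset Set.subset_union_left
  have f5' := f4'.subset Set.subset_union_right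
  have hc : cnt (A q m (g + 1) r (h + 1)) = S1.ncard + (S2.ncard + (S3.ncard + (S4.ncard +
      (S5.ncard + S6.ncard)))) := by
    unfold cnt
    rw [hU, Set.ncard_union_eq _ f1 f1', Set.ncard_union_eq _ f2 f2', Set.ncard_union_eq _ f3 f3',
      Set.ncard_union_eq _ f4 f4', Set.ncard_union_eq _ f5 f5']
    · rw [Set.disjoint_left]
      rintro l ⟨h', rfl, l', rfl, -⟩ ⟨⟨-, h1, -⟩, -⟩
      omega
    · rw [Set.disjoint_left]
      rintro l ⟨h', rfl, d, rfl, p, hp, l', rfl, -⟩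
        (⟨h'', h1, l'', h2, -⟩ | ⟨⟨-, h1, -⟩, -⟩)
      · have h3 := (List.cons.inj h2).1
        have hp' := Finset.HasAntidiagonal.mem_antidiagonal.mp hp
        omega
      · omega
    · rw [Set.disjoint_left]
      rintro l ⟨g', rfl, d, rfl, p, hp, l', rfl, -⟩
        (⟨h'', h1, d', h1', p', hp', l'', h2, -⟩ | ⟨h'', h1, l'', h2, -⟩ | ⟨⟨h1, -⟩, -⟩)
      · have h3 := (List.cons.inj h2).1
        have hp'' := Finset.HasAntidiagonal.mem_antidiagonal.mp hp
        omega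
      · have h3 := (List.cons.inj h2).1
        have hp'' := Finset.HasAntidiagonal.mem_antidiagonal.mp hp
        omega
      · omega
    · rw [Set.disjoint_left]
      rintro l ⟨-, g', rfl, l', rfl, -⟩
        (⟨g'', h1, d, h1', p, hp, l'', h2, -⟩ | ⟨h'', h1, d', h1', p', hp', l'', h2, -⟩ |
          ⟨h'', h1, l'', h2, -⟩ | ⟨⟨h1, -⟩, -⟩)
      · have h3 := (List.cons.inj h2).1
        have hp'' := Finset.HasAntidiagonal.mem_antidiagonal.mp hp
        omega
      · have h3 := (List.cons.inj h2).1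
        omega
      · have h3 := (List.cons.inj h2).1
        omega
      · omega
    · rw [Set.disjoint_left]
      rintro l ⟨-, g', rfl, l', rfl, -⟩
        (⟨-, g'', h1, l'', h2, -⟩ |
          ⟨g'', h1, d, h1', p, hp, l'', h2, -⟩ | ⟨h'', h1, d', h1', p', hp', l'', h2, -⟩ |
          ⟨h'', h1, l'', h2, -⟩ | ⟨⟨h1, -⟩, -⟩)
      · have h3 := (List.cons.inj h2).1
        omega
      · have h3 := (List.cons.inj h2).1
        omega
      · have h3 := (List.cons.inj h2).1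
        omega
      · have h3 := (List.cons.inj h2).1
        omega
      · omega
  have n1 : S1.ncard = if q ≠ Q.o then
      sh (fun g' => cnt (A Q.o (m + 1) (g' + 1) r (h + 1))) g else 0 := by
    rw [hS1, grd, shl]
    simp only [one]
  have n2 : S2.ncard = if q ≠ Q.a1 ∧ q ≠ Q.a2 then
      sh (fun g' => cnt (A Q.a2 m (g' + 1) (r + 1) (h + 1))) g else 0 := by
    rw [hS2, grd, shl g (fun g' => W (m + g' + 1) (A Q.a2 m (g' + 1) (r + 1) (h + 1)))]
    simp only [one]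
  have n3 : S3.ncard = sh (sh (fun d => ∑ p ∈ Finset.HasAntidiagonal.antidiagonal d,
      cnt (T Q.a1 m (p.1 + 1) 1 (p.2 + 1) r (h + 1)))) g := by
    rw [hS3, shl g (fun g' => {l | ∃ d, g' = d + 1 ∧
      l ∈ {l | ∃ p ∈ Finset.HasAntidiagonal.antidiagonal d, ∃ l', l = (m + p.1 + 1) :: l' ∧
      Acc (T Q.a1 m (p.1 + 1) 1 (p.2 + 1) r (h + 1)) l'}})]
    congr 1
    funext g'
    rw [shl g' (fun d => {l | ∃ p ∈ Finset.HasAntidiagonal.antidiagonal d, ∃ l',
      l = (m + p.1 + 1) :: l' ∧ Acc (T Q.a1 m (p.1 + 1) 1 (p.2 + 1) r (h + 1)) l'})]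
    congr 1
    funext d
    apply multi (Finset.HasAntidiagonal.antidiagonal d) (fun p => m + p.1 + 1)
      (fun p => T Q.a1 m (p.1 + 1) 1 (p.2 + 1) r (h + 1))
    intro p hp p' hp' h1
    have hp1 := Finset.HasAntidiagonal.mem_antidiagonal.mp hp
    have hp2 := Finset.HasAntidiagonal.mem_antidiagonal.mp hp'
    apply Prod.ext <;> omega
  have n4 : S4.ncard = sh (sh (fun d => ∑ p ∈ Finset.HasAntidiagonal.antidiagonal d,
      cnt (T Q.x m (g + 1) r (p.1 + 1) 1 (p.2 + 1)))) h := by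
    rw [hS4, shl h (fun g' => {l | ∃ d, g' = d + 1 ∧
      l ∈ {l | ∃ p ∈ Finset.HasAntidiagonal.antidiagonal d, ∃ l',
        l = (m + (g + 1) + r + p.1 + 1) :: l' ∧
      Acc (T Q.x m (g + 1) r (p.1 + 1) 1 (p.2 + 1)) l'}})]
    congr 1
    funext g'
    rw [shl g' (fun d => {l | ∃ p ∈ Finset.HasAntidiagonal.antidiagonal d, ∃ l',
      l = (m + (g + 1) + r + p.1 + 1) :: l' ∧ Acc (T Q.x m (g + 1) r (p.1 + 1) 1 (p.2 + 1)) l'})]
    congr 1
    funext d
    apply multi (Finset.HasAntidiagonal.antidiagonal d) (fun p => m + (g + 1) + r + p.1 + 1)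
      (fun p => T Q.x m (g + 1) r (p.1 + 1) 1 (p.2 + 1))
    intro p hp p' hp' h1
    have hp1 := Finset.HasAntidiagonal.mem_antidiagonal.mp hp
    have hp2 := Finset.HasAntidiagonal.mem_antidiagonal.mp hp'
    apply Prod.ext <;> omega
  have n5 : S5.ncard = sh (fun h' => cnt (B Q.x m (g + 1) r (h' + 1) 1)) h := by
    rw [hS5, shl h (fun h' => W (m + (g + 1) + r + h' + 1) (B Q.x m (g + 1) r (h' + 1) 1))]
    simp only [one]
  have n6 : S6.ncard = if g = 0 ∧ h = 0 ∧ q ≠ Q.a1 then 1 else 0 := by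
    rw [hS6, grd, W_Z_card]
  rw [hc, n1, n2, n3, n4, n5, n6]
  simp only [add_assoc]

theorem recT_cnt : RecT cnt := by
  intro q m g r k t h
  set S1 : Set (List ℕ) := {l | q ≠ Q.o ∧ l ∈ {l | ∃ g', g = g' + 1 ∧
    l ∈ W m (T Q.o (m + 1) (g' + 1) r (k + 1) t (h + 1))}} with hS1
  set S2 : Set (List ℕ) := {l | (q ≠ Q.a1 ∧ q ≠ Q.a2) ∧ l ∈ {l | ∃ g', g = g' + 1 ∧
    l ∈ W (m + g' + 1) (T Q.a2 m (g' + 1) (r + 1) (k + 1) t (h + 1))}} with hS2
  set S3 : Set (List ℕ) := {l | q ≠ Q.x ∧ l ∈ {l | ∃ k', k = k' + 1 ∧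
    l ∈ W (m + (g + 1) + r + k' + 1) (T Q.x m (g + 1) r (k' + 1) (t + 1) (h + 1))}} with hS3
  set S4 : Set (List ℕ) := {l | (g = 0 ∧ q = Q.x) ∧
    l ∈ W m (A Q.x (m + 1 + r) (k + 1) t (h + 1))} with hS4
  have hU : {l | Acc (T q m (g + 1) r (k + 1) t (h + 1)) l} = S1 ∪ (S2 ∪ (S3 ∪ S4)) := by
    ext l
    constructor
    · intro hl
      cases hl with
      | cons hs ha =>
        cases hs with
        | Tl _ _ g' _ _ _ _ hq => exact Or.inl ⟨hq, g', rfl, _, rfl, ha⟩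
        | Tr _ _ g' _ _ _ _ hq hq' => exact Or.inr (Or.inl ⟨⟨hq, hq'⟩, g', rfl, _, rfl, ha⟩)
        | Tf => exact Or.inr (Or.inr (Or.inr ⟨⟨rfl, rfl⟩, _, rfl, ha⟩))
        | Tc _ _ _ _ k' _ _ hq => exact Or.inr (Or.inr (Or.inl ⟨hq, k', rfl, _, rfl, ha⟩))
    · rintro (⟨hq, g', rfl, l', rfl, ha⟩ | ⟨⟨hq, hq'⟩, g', rfl, l', rfl, ha⟩ |
        ⟨hq, k', rfl, l', rfl, ha⟩ | ⟨⟨rfl, rfl⟩, l', rfl, ha⟩)
      · exact Acc.cons (Step.Tl q m g' r (k + 1) t (h + 1) hq) ha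
      · exact Acc.cons (Step.Tr q m g' r (k + 1) t (h + 1) hq hq') ha
      · exact Acc.cons (Step.Tc q m (g + 1) r k' t (h + 1) hq) ha
      · exact Acc.cons (Step.Tf m r (k + 1) t (h + 1)) ha
  have hfin := finiteStm (T q m (g + 1) r (k + 1) t (h + 1))
  rw [hU] at hfin
  have f1 := hfin.subset Set.subset_union_left
  have f1' := hfin.subset Set.subset_union_right
  have f2 := f1'.subset Set.subset_union_left
  have f2' := f1'.subset Set.subset_union_right
  have f3 := f2'.subset Set.subset_union_left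
  have f3' := f2'.subset Set.subset_union_right
  have hc : cnt (T q m (g + 1) r (k + 1) t (h + 1)) =
      S1.ncard + (S2.ncard + (S3.ncard + S4.ncard)) := by
    unfold cnt
    rw [hU, Set.ncard_union_eq _ f1 f1', Set.ncard_union_eq _ f2 f2', Set.ncard_union_eq _ f3 f3']
    · rw [Set.disjoint_left]
      rintro l ⟨hq, h', h1, l', rfl, -⟩ ⟨⟨-, h2⟩, -⟩
      exact hq h2
    · rw [Set.disjoint_left]
      rintro l ⟨-, g', rfl, l', rfl, -⟩ (⟨-, k', h1, l'', h2, -⟩ | ⟨⟨h1, -⟩, -⟩)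
      · have h3 := (List.cons.inj h2).1
        omega
      · omega
    · rw [Set.disjoint_left]
      rintro l ⟨-, g', rfl, l', rfl, -⟩
        (⟨-, g'', h1, l'', h2, -⟩ | ⟨-, k', h1, l'', h2, -⟩ | ⟨⟨h1, -⟩, -⟩)
      · have h3 := (List.cons.inj h2).1
        omega
      · have h3 := (List.cons.inj h2).1
        omega
      · omega
  have n1 : S1.ncard = if q ≠ Q.o then
      sh (fun g' => cnt (T Q.o (m + 1) (g' + 1) r (k + 1) t (h + 1))) g else 0 := by
    rw [hS1, grd, shl]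
    simp only [one]
  have n2 : S2.ncard = if q ≠ Q.a1 ∧ q ≠ Q.a2 then
      sh (fun g' => cnt (T Q.a2 m (g' + 1) (r + 1) (k + 1) t (h + 1))) g else 0 := by
    rw [hS2, grd, shl g (fun g' => W (m + g' + 1)
      (T Q.a2 m (g' + 1) (r + 1) (k + 1) t (h + 1)))]
    simp only [one]
  have n3 : S3.ncard = if q ≠ Q.x then
      sh (fun k' => cnt (T Q.x m (g + 1) r (k' + 1) (t + 1) (h + 1))) k else 0 := by
    rw [hS3, grd, shl k (fun k' => W (m + (g + 1) + r + k' + 1)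
      (T Q.x m (g + 1) r (k' + 1) (t + 1) (h + 1)))]
    simp only [one]
  have n4 : S4.ncard = if g = 0 ∧ q = Q.x then cnt (A Q.x (m + 1 + r) (k + 1) t (h + 1)) else 0 := by
    rw [hS4, grd, one]
  rw [hc, n1, n2, n3, n4]
  simp only [add_assoc]

theorem recB_cnt : RecB cnt := by
  intro q m g r k t
  set S1 : Set (List ℕ) := {l | q ≠ Q.o ∧ l ∈ {l | ∃ g', g = g' + 1 ∧
    l ∈ W m (B Q.o (m + 1) (g' + 1) r (k + 1) t)}} with hS1
  set S2 : Set (List ℕ) := {l | (q ≠ Q.a1 ∧ q ≠ Q.a2) ∧ l ∈ {l | ∃ g', g = g' + 1 ∧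
    l ∈ W (m + g' + 1) (B Q.a2 m (g' + 1) (r + 1) (k + 1) t)}} with hS2
  set S3 : Set (List ℕ) := {l | q ≠ Q.x ∧ l ∈ {l | ∃ k', k = k' + 1 ∧
    l ∈ W (m + (g + 1) + r + k' + 1) (B Q.x m (g + 1) r (k' + 1) (t + 1))}} with hS3
  set S4 : Set (List ℕ) := {l | (g = 0 ∧ k = 0 ∧ q = Q.x) ∧ l ∈ W m (Z (m + 1 + r))} with hS4
  set S5 : Set (List ℕ) := {l | (g = 0 ∧ k = 0 ∧ ((q = Q.o ∨ q = Q.a2) ∧ 0 < m)) ∧
    l ∈ W (m + 1 + r) (Z m)} with hS5
  have hU : {l | Acc (B q m (g + 1) r (k + 1) t) l} = S1 ∪ (S2 ∪ (S3 ∪ (S4 ∪ S5))) := by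
    ext l
    constructor
    · intro hl
      cases hl with
      | cons hs ha =>
        cases hs with
        | Bl _ _ g' _ _ _ hq => exact Or.inl ⟨hq, g', rfl, _, rfl, ha⟩
        | Br _ _ g' _ _ _ hq hq' => exact Or.inr (Or.inl ⟨⟨hq, hq'⟩, g', rfl, _, rfl, ha⟩)
        | Bc _ _ _ _ k' _ hq => exact Or.inr (Or.inr (Or.inl ⟨hq, k', rfl, _, rfl, ha⟩))
        | Bf => exact Or.inr (Or.inr (Or.inr (Or.inl ⟨⟨rfl, rfl, rfl⟩, _, rfl, ha⟩)))
        | Bg _ _ _ _ hq hm =>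
          exact Or.inr (Or.inr (Or.inr (Or.inr ⟨⟨rfl, rfl, hq, hm⟩, _, rfl, ha⟩)))
    · rintro (⟨hq, g', rfl, l', rfl, ha⟩ | ⟨⟨hq, hq'⟩, g', rfl, l', rfl, ha⟩ |
        ⟨hq, k', rfl, l', rfl, ha⟩ | ⟨⟨rfl, rfl, rfl⟩, l', rfl, ha⟩ |
        ⟨⟨rfl, rfl, hq, hm⟩, l', rfl, ha⟩)
      · exact Acc.cons (Step.Bl q m g' r (k + 1) t hq) ha
      · exact Acc.cons (Step.Br q m g' r (k + 1) t hq hq') ha
      · exact Acc.cons (Step.Bc q m (g + 1) r k' t hq) ha
      · exact Acc.cons (Step.Bf m r t) ha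
      · exact Acc.cons (Step.Bg q m r t hq hm) ha
  have hfin := finiteStm (B q m (g + 1) r (k + 1) t)
  rw [hU] at hfin
  have f1 := hfin.subset Set.subset_union_left
  have f1' := hfin.subset Set.subset_union_right
  have f2 := f1'.subset Set.subset_union_left
  have f2' := f1'.subset Set.subset_union_right
  have f3 := f2'.subset Set.subset_union_left
  have f3' := f2'.subset Set.subset_union_right
  have f4 := f3'.subset Set.subset_union_left
  have f4' := f3'.subset Set.subset_union_right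
  have hc : cnt (B q m (g + 1) r (k + 1) t) =
      S1.ncard + (S2.ncard + (S3.ncard + (S4.ncard + S5.ncard))) := by
    unfold cnt
    rw [hU, Set.ncard_union_eq _ f1 f1', Set.ncard_union_eq _ f2 f2', Set.ncard_union_eq _ f3 f3',
      Set.ncard_union_eq _ f4 f4']
    · rw [Set.disjoint_left]
      rintro l ⟨⟨-, -, h1⟩, -⟩ ⟨⟨-, -, h2, -⟩, -⟩
      rw [h1] at h2
      rcases h2 with h2 | h2 <;> cases h2
    · rw [Set.disjoint_left]
      rintro l ⟨hq, k', rfl, l', rfl, -⟩ (⟨⟨-, h1, -⟩, -⟩ | ⟨⟨-, h1, -⟩, -⟩) <;> omega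
    · rw [Set.disjoint_left]
      rintro l ⟨-, g', rfl, l', rfl, -⟩ (⟨-, k', h1, l'', h2, -⟩ | ⟨⟨h1, -⟩, -⟩ | ⟨⟨h1, -⟩, -⟩)
      · have h3 := (List.cons.inj h2).1
        omega
      · omega
      · omega
    · rw [Set.disjoint_left]
      rintro l ⟨-, g', rfl, l', rfl, -⟩
        (⟨-, g'', h1, l'', h2, -⟩ | ⟨-, k', h1, l'', h2, -⟩ | ⟨⟨h1, -⟩, -⟩ | ⟨⟨h1, -⟩, -⟩)
      · have h3 := (List.cons.inj h2).1
        omega
      · have h3 := (List.cons.inj h2).1
        omega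
      · omega
      · omega
  have n1 : S1.ncard = if q ≠ Q.o then
      sh (fun g' => cnt (B Q.o (m + 1) (g' + 1) r (k + 1) t)) g else 0 := by
    rw [hS1, grd, shl]
    simp only [one]
  have n2 : S2.ncard = if q ≠ Q.a1 ∧ q ≠ Q.a2 then
      sh (fun g' => cnt (B Q.a2 m (g' + 1) (r + 1) (k + 1) t)) g else 0 := by
    rw [hS2, grd, shl g (fun g' => W (m + g' + 1) (B Q.a2 m (g' + 1) (r + 1) (k + 1) t))]
    simp only [one]
  have n3 : S3.ncard = if q ≠ Q.x then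
      sh (fun k' => cnt (B Q.x m (g + 1) r (k' + 1) (t + 1))) k else 0 := by
    rw [hS3, grd, shl k (fun k' => W (m + (g + 1) + r + k' + 1)
      (B Q.x m (g + 1) r (k' + 1) (t + 1)))]
    simp only [one]
  have n4 : S4.ncard = if g = 0 ∧ k = 0 ∧ q = Q.x then 1 else 0 := by
    rw [hS4, grd, W_Z_card]
  have n5 : S5.ncard = if g = 0 ∧ k = 0 ∧ ((q = Q.o ∨ q = Q.a2) ∧ 0 < m) then 1 else 0 := by
    rw [hS5, grd, W_Z_card]
  rw [hc, n1, n2, n3, n4, n5]
  simp only [add_assoc]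
  congr 3
  by_cases hg : g = 0 <;> by_cases hk : k = 0 <;> cases q <;> simp [hg, hk]

theorem recStm : RecStm := ⟨recA_cnt, recT_cnt, recB_cnt⟩

end PopSt
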