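import Pool.Agent.R666.PS.Stms

/-! # PS-11: summation of the recurrences -/

namespace PopSt

open St Finset

abbrev AD (n : ℕ) : Finset (ℕ × ℕ) := Finset.HasAntidiagonal.antidiagonal n

theorem sum_AD_succ (n : ℕ) (f : ℕ × ℕ → ℕ) :
    ∑ p ∈ AD (n + 1), f p = f (0, n + 1) + ∑ p ∈ AD n, f (p.1 + 1, p.2) :=
  Finset.Nat.sum_antidiagonal_succ

theorem sum_AD_succ' (n : ℕ) (f : ℕ × ℕ → ℕ) :
    ∑ p ∈ AD (n + 1), f p = f (n + 1, 0) + ∑ p ∈ AD n, f (p.1, p.2 + 1) :=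
  Finset.Nat.sum_antidiagonal_succ'

theorem sum_AD_zero (f : ℕ × ℕ → ℕ) : ∑ p ∈ AD 0, f p = f (0, 0) := by
  simp [AD]

theorem sum_sh1 (n : ℕ) (F : ℕ → ℕ → ℕ) :
    ∑ p ∈ AD (n + 1), sh (fun i => F i p.2) p.1 = ∑ p ∈ AD n, F p.1 p.2 := by
  rw [sum_AD_succ]
  simp [sh]

theorem sum_sh2 (n : ℕ) (F : ℕ → ℕ → ℕ) :
    ∑ p ∈ AD (n + 1), sh (fun i => F p.1 i) p.2 = ∑ p ∈ AD n, F p.1 p.2 := by
  rw [sum_AD_succ']
  simp [sh]

theorem sum_sh1_zero (F : ℕ → ℕ → ℕ) :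
    ∑ p ∈ AD 0, sh (fun i => F i p.2) p.1 = 0 := by
  rw [sum_AD_zero]; rfl

theorem sum_sh2_zero (F : ℕ → ℕ → ℕ) :
    ∑ p ∈ AD 0, sh (fun i => F p.1 i) p.2 = 0 := by
  rw [sum_AD_zero]; rfl

theorem sum_assoc (s : ℕ) (G : ℕ → ℕ → ℕ → ℕ) :
    ∑ x ∈ AD s, ∑ p ∈ AD x.1, G p.1 p.2 x.2 = ∑ x ∈ AD s, ∑ p ∈ AD x.2, G x.1 p.1 p.2 := by
  simp only [AD, Finset.sum_sigma']
  apply Finset.sum_nbij' (fun ⟨⟨_i, j⟩, ⟨k, l⟩⟩ ↦ ⟨(k, l + j), (l, j)⟩)
    (fun ⟨⟨i, _j⟩, ⟨k, l⟩⟩ ↦ ⟨(i + k, l), (i, k)⟩) <;> aesop (add simp [add_assoc])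

variable (c : St → ℕ)

def VB (q : Q) (m r t s : ℕ) : ℕ := ∑ p ∈ AD s, c (B q m (p.1 + 1) r (p.2 + 1) t)

def VT (q : Q) (m r t s : ℕ) : ℕ :=
  ∑ x ∈ AD s, ∑ p ∈ AD x.2, c (T q m (x.1 + 1) r (p.1 + 1) t (p.2 + 1))

def VA (q : Q) (m r s : ℕ) : ℕ := ∑ p ∈ AD s, c (A q m (p.1 + 1) r (p.2 + 1))

theorem sum_if (P : Prop) [Decidable P] (S : Finset (ℕ × ℕ)) (f : ℕ × ℕ → ℕ) :
    ∑ p ∈ S, (if P then f p else 0) = if P then ∑ p ∈ S, f p else 0 := by
  split_ifs <;> simp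

theorem VB_succ (hB : RecB c) (q : Q) (m r t s : ℕ) :
    VB c q m r t (s + 1) = (if q ≠ Q.o then VB c Q.o (m + 1) r t s else 0) +
      (if q ≠ Q.a1 ∧ q ≠ Q.a2 then VB c Q.a2 m (r + 1) t s else 0) +
      (if q ≠ Q.x then VB c Q.x m r (t + 1) s else 0) := by
  unfold VB
  rw [Finset.sum_congr rfl (fun p _ => hB q m p.1 r p.2 t)]
  rw [Finset.sum_add_distrib, Finset.sum_add_distrib, Finset.sum_add_distrib, sum_if, sum_if,
    sum_if]
  have h1 := sum_sh1 s (fun g' k => c (B Q.o (m + 1) (g' + 1) r (k + 1) t))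
  have h2 := sum_sh1 s (fun g' k => c (B Q.a2 m (g' + 1) (r + 1) (k + 1) t))
  have h3 := sum_sh2 s (fun g k' => c (B Q.x m (g + 1) r (k' + 1) (t + 1)))
  rw [h1, h2, h3]
  rw [Finset.sum_eq_zero (s := AD (s + 1)) (f := fun p => if p.1 = 0 ∧ p.2 = 0 ∧
    (q = Q.x ∨ ((q = Q.o ∨ q = Q.a2) ∧ 0 < m)) then 1 else 0), add_zero]
  intro p hp
  rw [if_neg]
  rintro ⟨h1, h2, _⟩
  have := Finset.HasAntidiagonal.mem_antidiagonal.1 hp
  omega

theorem VB_zero (hB : RecB c) (q : Q) (m r t : ℕ) :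
    VB c q m r t 0 = if q = Q.x ∨ ((q = Q.o ∨ q = Q.a2) ∧ 0 < m) then 1 else 0 := by
  unfold VB
  rw [sum_AD_zero, hB q m 0 r 0 t]
  simp [sh]

theorem VA_succ2 (hA : RecA c) (q : Q) (m r s : ℕ) :
    VA c q m r (s + 2) = (if q ≠ Q.o then VA c Q.o (m + 1) r (s + 1) else 0) +
      (if q ≠ Q.a1 ∧ q ≠ Q.a2 then VA c Q.a2 m (r + 1) (s + 1) else 0) +
      VT c Q.a1 m 1 r s + VT c Q.x m r 1 s + VB c Q.x m r 1 (s + 1) := by
  unfold VA
  rw [Finset.sum_congr rfl (fun p _ => hA q m p.1 r p.2)]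
  rw [Finset.sum_add_distrib, Finset.sum_add_distrib, Finset.sum_add_distrib,
    Finset.sum_add_distrib, Finset.sum_add_distrib, sum_if, sum_if]
  have h1 := sum_sh1 (s + 1) (fun g' h => c (A Q.o (m + 1) (g' + 1) r (h + 1)))
  have h2 := sum_sh1 (s + 1) (fun g' h => c (A Q.a2 m (g' + 1) (r + 1) (h + 1)))
  have h3 := sum_sh1 (s + 1) (fun g' h => sh (fun d =>
    ∑ p ∈ AD d, c (T Q.a1 m (p.1 + 1) 1 (p.2 + 1) r (h + 1))) g')
  have h3' := sum_sh1 s (fun d h => ∑ p ∈ AD d, c (T Q.a1 m (p.1 + 1) 1 (p.2 + 1) r (h + 1)))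
  have h3'' := sum_assoc s (fun a b h => c (T Q.a1 m (a + 1) 1 (b + 1) r (h + 1)))
  have h4 := sum_sh2 (s + 1) (fun g h' => sh (fun d =>
    ∑ p ∈ AD d, c (T Q.x m (g + 1) r (p.1 + 1) 1 (p.2 + 1))) h')
  have h4' := sum_sh2 s (fun g d => ∑ p ∈ AD d, c (T Q.x m (g + 1) r (p.1 + 1) 1 (p.2 + 1)))
  have h5 := sum_sh2 (s + 1) (fun g h' => c (B Q.x m (g + 1) r (h' + 1) 1))
  have e3 : ∑ x ∈ AD (s + 2), sh (sh fun d =>
      ∑ p ∈ Finset.HasAntidiagonal.antidiagonal d,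
        c (T Q.a1 m (p.1 + 1) 1 (p.2 + 1) r (x.2 + 1))) x.1 = VT c Q.a1 m 1 r s := by
    unfold VT
    rw [← h3'', ← h3', ← h3]
  have e4 : ∑ x ∈ AD (s + 2), sh (sh fun d =>
      ∑ p ∈ Finset.HasAntidiagonal.antidiagonal d,
        c (T Q.x m (x.1 + 1) r (p.1 + 1) 1 (p.2 + 1))) x.2 = VT c Q.x m r 1 s := by
    unfold VT
    rw [← h4', ← h4]
  have e6 : ∑ x ∈ AD (s + 2), (if x.1 = 0 ∧ x.2 = 0 ∧ q ≠ Q.a1 then 1 else 0) = 0 := by
    apply Finset.sum_eq_zero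
    intro p hp
    rw [if_neg]
    rintro ⟨h1, h2, _⟩
    have := Finset.HasAntidiagonal.mem_antidiagonal.1 hp
    omega
  unfold VB
  rw [e3, e4, e6, h1, h2, h5, add_zero]

theorem VA_one (hA : RecA c) (q : Q) (m r : ℕ) :
    VA c q m r 1 = (if q ≠ Q.o then VA c Q.o (m + 1) r 0 else 0) +
      (if q ≠ Q.a1 ∧ q ≠ Q.a2 then VA c Q.a2 m (r + 1) 0 else 0) + VB c Q.x m r 1 0 := by
  unfold VA VB
  rw [sum_AD_succ, sum_AD_zero]
  simp only [sum_AD_zero]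
  rw [hA q m 0 r 1, hA q m 1 r 0]
  simp [sh]
  split_ifs <;> simp [add_comm]

theorem VA_zero (hA : RecA c) (q : Q) (m r : ℕ) :
    VA c q m r 0 = if q ≠ Q.a1 then 1 else 0 := by
  unfold VA
  rw [sum_AD_zero, hA q m 0 r 0]
  simp [sh]

theorem VT_succ (hT : RecT c) (q : Q) (m r t s : ℕ) :
    VT c q m r t (s + 1) = (if q ≠ Q.o then VT c Q.o (m + 1) r t s else 0) +
      (if q ≠ Q.a1 ∧ q ≠ Q.a2 then VT c Q.a2 m (r + 1) t s else 0) +
      (if q ≠ Q.x then VT c Q.x m r (t + 1) s else 0) +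
      (if q = Q.x then VA c Q.x (m + 1 + r) t (s + 1) else 0) := by
  unfold VT
  rw [Finset.sum_congr rfl (fun x _ => Finset.sum_congr rfl
    (fun p _ => hT q m x.1 r p.1 t p.2))]
  simp only [Finset.sum_add_distrib]
  congr 1
  · congr 1
    · congr 1
      · by_cases hq : q ≠ Q.o
        · simp only [if_pos hq]
          rw [sum_AD_succ]
          simp [sh]
        · simp only [if_neg hq]
          simp
      · by_cases hq : q ≠ Q.a1 ∧ q ≠ Q.a2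
        · simp only [if_pos hq]
          rw [sum_AD_succ]
          simp [sh]
        · simp only [if_neg hq]
          simp
    · by_cases hq : q ≠ Q.x
      · simp only [if_pos hq]
        rw [sum_AD_succ']
        simp only
        rw [sum_AD_zero]
        have : ∀ x ∈ AD s, ∑ p ∈ AD (x.2 + 1),
            sh (fun k' => c (T Q.x m (x.1 + 1) r (k' + 1) (t + 1) (p.2 + 1))) p.1 =
            ∑ p ∈ AD x.2, c (T Q.x m (x.1 + 1) r (p.1 + 1) (t + 1) (p.2 + 1)) := fun x _ =>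
          sum_sh1 x.2 (fun k' h => c (T Q.x m (x.1 + 1) r (k' + 1) (t + 1) (h + 1)))
        rw [Finset.sum_congr rfl this]
        simp [sh]
      · simp only [if_neg hq]
        simp
  · by_cases hq : q = Q.x
    · rw [if_pos hq, sum_AD_succ]
      simp [hq, VA]
    · simp [hq]

theorem VT_zero (hT : RecT c) (q : Q) (m r t : ℕ) :
    VT c q m r t 0 = if q = Q.x then VA c Q.x (m + 1 + r) t 0 else 0 := by
  unfold VT VA
  simp only [sum_AD_zero]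
  rw [hT q m 0 r 0 t 0]
  simp [sh]

/-- closed form of `VB` for `m ≥ 1` -/
theorem VB_closed (hB : RecB c) : ∀ s m r t : ℕ, 1 ≤ m →
    VB c Q.o m r t s = 2 ^ s ∧ VB c Q.a2 m r t s = 2 ^ s ∧ VB c Q.x m r t s = 2 ^ s := by
  intro s
  induction s with
  | zero =>
    intro m r t hm
    refine ⟨?_, ?_, ?_⟩ <;> rw [VB_zero c hB] <;> simp <;> omega
  | succ s ih =>
    intro m r t hm
    have h1 := (ih (m + 1) r t (by omega)).1
    have h2 := (ih m (r + 1) t hm).2.1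
    have h3 := (ih m r (t + 1) hm).2.2
    refine ⟨?_, ?_, ?_⟩ <;> rw [VB_succ c hB] <;> simp [h1, h2, h3, pow_succ] <;> ring

/-- closed forms of `VT` and `VA` -/
theorem VTA_closed (hA : RecA c) (hT : RecT c) (hB : RecB c) : ∀ s : ℕ,
    (∀ m r : ℕ, 1 ≤ m → VA c Q.o m r s = Nat.fib (2 * s + 1) ∧
      VA c Q.a2 m r s = Nat.fib (2 * s + 1) ∧
      VA c Q.x m r s = (if s = 0 then 1 else Nat.fib (2 * s + 1) + Nat.fib (2 * s - 1))) ∧
    (∀ m r t : ℕ, VT c Q.o m r t s + 2 ^ s = Nat.fib (2 * s + 2) ∧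
      VT c Q.a1 m r t s + 2 ^ s = Nat.fib (2 * s + 2) ∧
      VT c Q.a2 m r t s + 2 ^ s = Nat.fib (2 * s + 2) ∧
      VT c Q.x m r t s + 2 ^ s = Nat.fib (2 * s + 3)) := by
  intro s
  induction s using Nat.strong_induction_on with
  | _ s ih =>
    have hVA : ∀ m r : ℕ, 1 ≤ m → VA c Q.o m r s = Nat.fib (2 * s + 1) ∧
      VA c Q.a2 m r s = Nat.fib (2 * s + 1) ∧
      VA c Q.x m r s = (if s = 0 then 1 else Nat.fib (2 * s + 1) + Nat.fib (2 * s - 1)) := by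
      rcases s with _ | _ | s
      · intro m r hm
        refine ⟨?_, ?_, ?_⟩ <;> rw [VA_zero c hA] <;> simp
      · intro m r hm
        have h0 : ∀ q m r, VA c q m r 0 = if q ≠ Q.a1 then 1 else 0 := VA_zero c hA
        have hb := (VB_closed c hB 0 m r 1 hm).2.2
        refine ⟨?_, ?_, ?_⟩ <;> rw [show 0 + 1 = 1 from rfl, VA_one c hA, h0, h0, hb] <;>
          simp [Nat.fib_add_two]
      · intro m r hm
        obtain ⟨ihA, ihT⟩ := ih (s + 1) (by omega)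
        obtain ⟨_, ihT0⟩ := ih s (by omega)
        have a1 := (ihA (m + 1) r (by omega)).1
        have a2 := (ihA m (r + 1) hm).2.1
        have t1 := (ihT0 m 1 r).2.1
        have t2 := (ihT0 m r 1).2.2.2
        have hb := (VB_closed c hB (s + 1) m r 1 hm).2.2
        have f1 : Nat.fib (2 * s + 3) = Nat.fib (2 * s + 1) + Nat.fib (2 * s + 2) :=
          Nat.fib_add_two
        have f2 : Nat.fib (2 * s + 4) = Nat.fib (2 * s + 2) + Nat.fib (2 * s + 3) :=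
          Nat.fib_add_two
        have f3 : Nat.fib (2 * s + 5) = Nat.fib (2 * s + 3) + Nat.fib (2 * s + 4) :=
          Nat.fib_add_two
        have e1 : 2 * (s + 1) + 1 = 2 * s + 3 := by ring
        have e2 : 2 * (s + 1 + 1) + 1 = 2 * s + 5 := by ring
        have e3 : 2 * (s + 1 + 1) - 1 = 2 * s + 3 := by omega
        rw [e1] at a1 a2
        rw [pow_succ] at hb
        rw [e2, e3]
        refine ⟨?_, ?_, ?_⟩ <;> rw [show s + 1 + 1 = s + 2 from rfl, VA_succ2 c hA] <;>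
          simp [a1, a2, hb] <;> omega
    refine ⟨hVA, ?_⟩
    rcases s with _ | s
    · intro m r t
      have h0 := (hVA (m + 1 + r) t (by omega)).2.2
      refine ⟨?_, ?_, ?_, ?_⟩ <;> rw [VT_zero c hT] <;> simp [h0, Nat.fib_add_two]
    · intro m r t
      obtain ⟨_, ihT⟩ := ih s (by omega)
      have t1 := (ihT (m + 1) r t).1
      have t2 := (ihT m (r + 1) t).2.2.1
      have t3 := (ihT m r (t + 1)).2.2.2
      have a1 := (hVA (m + 1 + r) t (by omega)).2.2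
      have f1 : Nat.fib (2 * s + 3) = Nat.fib (2 * s + 1) + Nat.fib (2 * s + 2) :=
        Nat.fib_add_two
      have f2 : Nat.fib (2 * s + 4) = Nat.fib (2 * s + 2) + Nat.fib (2 * s + 3) :=
        Nat.fib_add_two
      have f3 : Nat.fib (2 * s + 5) = Nat.fib (2 * s + 3) + Nat.fib (2 * s + 4) :=
        Nat.fib_add_two
      have e1 : 2 * (s + 1) + 1 = 2 * s + 3 := by ring
      have e2 : 2 * (s + 1) + 2 = 2 * s + 4 := by ring
      have e3 : 2 * (s + 1) + 3 = 2 * s + 5 := by ring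
      have e4 : 2 * (s + 1) - 1 = 2 * s + 1 := by omega
      rw [e1, e4, if_neg (by omega)] at a1
      rw [e2, e3]
      refine ⟨?_, ?_, ?_, ?_⟩ <;> rw [VT_succ c hT, pow_succ] <;> simp [a1] <;> omega

/-- closed form of `VB` for `m = 0` -/
theorem VB_closed0 (hB : RecB c) : ∀ s r t : ℕ,
    VB c Q.x 0 r t s + s % 2 = 2 ^ s ∧ VB c Q.a2 0 r t s + (1 - s % 2) = 2 ^ s := by
  intro s
  induction s with
  | zero =>
    intro r t
    refine ⟨?_, ?_⟩ <;> rw [VB_zero c hB] <;> simp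
  | succ s ih =>
    intro r t
    have h1 := (VB_closed c hB s 1 r t (le_refl 1)).1
    have h2 := (ih (r + 1) t).2
    have h3 := (ih r (t + 1)).1
    refine ⟨?_, ?_⟩ <;> rw [VB_succ c hB, pow_succ] <;> simp [h1] <;> omega

/-- PS-11 -/
theorem sum_stm : SumStm := by
  intro c hA hT hB n hn
  obtain ⟨k, rfl⟩ : ∃ k, n = k + 3 := ⟨n - 3, by omega⟩
  change VA c Q.a1 0 1 (k + 3 - 3) = _
  rw [show k + 3 - 3 = k by omega, show 2 * (k + 3) - 5 = 2 * k + 1 by omega]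
  rcases k with _ | _ | s
  · rw [VA_zero c hA]
    simp [show Odd 3 by decide]
  · rw [show 0 + 1 = 1 from rfl, VA_one c hA, VA_zero c hA, VA_zero c hA, VB_zero c hB]
    simp [show ¬ Odd 4 by decide, Nat.fib_add_two]
  · rw [show s + 1 + 1 = s + 2 from rfl, VA_succ2 c hA]
    obtain ⟨ihA, _⟩ := VTA_closed c hA hT hB (s + 1)
    obtain ⟨_, ihT⟩ := VTA_closed c hA hT hB s
    have a1 := (ihA 1 1 (le_refl 1)).1
    have t1 := (ihT 0 1 1).2.1
    have t2 := (ihT 0 1 1).2.2.2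
    have hb := (VB_closed0 c hB (s + 1) 1 1).1
    have f1 : Nat.fib (2 * s + 3) = Nat.fib (2 * s + 1) + Nat.fib (2 * s + 2) :=
      Nat.fib_add_two
    have f2 : Nat.fib (2 * s + 4) = Nat.fib (2 * s + 2) + Nat.fib (2 * s + 3) :=
      Nat.fib_add_two
    have f3 : Nat.fib (2 * s + 5) = Nat.fib (2 * s + 3) + Nat.fib (2 * s + 4) :=
      Nat.fib_add_two
    have e1 : 2 * (s + 1) + 1 = 2 * s + 3 := by ring
    have e2 : 2 * (s + 2) + 1 = 2 * s + 5 := by ring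
    rw [e1] at a1
    rw [pow_succ] at hb
    rw [e2]
    have hodd : Odd (s + 2 + 3) ↔ s % 2 = 0 := by
      rw [Nat.odd_iff]; omega
    by_cases hs : s % 2 = 0
    · rw [if_pos (hodd.2 hs)]
      simp [a1]
      omega
    · rw [if_neg (fun h => hs (hodd.1 h))]
      simp [a1]
      omega

end PopSt
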