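import Pool.Agent.R666.PS.Stms

/-! PS-12: permutations of `Fin n` versus lists. -/

namespace PopSt

namespace P12

theorem getElem_mid (p c s : List ℕ) (m : ℕ) (hm : m < c.length)
    (h : p.length + m < (p ++ c ++ s).length) : (p ++ c ++ s)[p.length + m] = (c)[m] := by
  rw [List.getElem_append_left (by rw [List.length_append]; omega),
    List.getElem_append_right (by omega)]
  congr 1
  omega

theorem mem_mid {n : ℕ} (f : Fin n → ℕ) (p c s : List ℕ) (h : List.ofFn f = p ++ c ++ s)
    (v : ℕ) : v ∈ c ↔ ∃ k : Fin n, p.length ≤ k ∧ (k : ℕ) < p.length + c.length ∧ f k = v := by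
  have hlen : n = p.length + c.length + s.length := by
    have := congrArg List.length h
    rwa [List.length_ofFn, List.length_append, List.length_append] at this
  have key : ∀ (m : ℕ) (hm : m < c.length), f ⟨p.length + m, by omega⟩ = (c)[m] := by
    intro m hm
    have h1 : (List.ofFn f)[p.length + m]'(by rw [List.length_ofFn]; omega) =
        (p ++ c ++ s)[p.length + m]'(by
          rw [List.length_append, List.length_append]; omega) := List.getElem_of_eq h _
    rw [List.getElem_ofFn] at h1
    rw [h1, getElem_mid p c s m hm]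
  constructor
  · intro hv
    obtain ⟨m, hm, rfl⟩ := List.mem_iff_getElem.1 hv
    exact ⟨⟨p.length + m, by omega⟩, Nat.le_add_right _ _, by
      show p.length + m < p.length + c.length
      omega, key m hm⟩
  · rintro ⟨⟨k, hk⟩, h1, h2, h3⟩
    simp only at h1 h2
    have h4 := key (k - p.length) (by omega)
    have h5 : (⟨p.length + (k - p.length), by omega⟩ : Fin n) = ⟨k, hk⟩ := by
      apply Fin.ext
      show p.length + (k - p.length) = k
      omega
    rw [h5, h3] at h4
    rw [h4]
    exact List.getElem_mem _

/-- the one-line notation -/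
def phi {n : ℕ} (σ : Equiv.Perm (Fin n)) : List ℕ := List.ofFn (fun i => ((σ i : Fin n) : ℕ))

theorem phi_inj {n : ℕ} : Function.Injective (phi (n := n)) := by
  intro σ τ h
  have h1 := List.ofFn_injective h
  apply Equiv.ext
  intro i
  exact Fin.ext (congrFun h1 i)

theorem phi_perm {n : ℕ} (σ : Equiv.Perm (Fin n)) : (phi σ).Perm (List.range n) := by
  rw [List.perm_ext_iff_of_nodup]
  · intro v
    unfold phi
    rw [List.mem_ofFn, List.mem_range]
    constructor
    · rintro ⟨i, rfl⟩
      exact (σ i).2
    · intro hv
      exact ⟨σ.symm ⟨v, hv⟩, by simp⟩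
  · unfold phi
    rw [List.nodup_ofFn]
    intro i j hij
    exact σ.injective (Fin.ext hij)
  · exact List.nodup_range

theorem exists_phi {n : ℕ} (l : List ℕ) (h : l.Perm (List.range n)) : ∃ σ : Equiv.Perm (Fin n),
    phi σ = l := by
  have hlen : l.length = n := by rw [h.length_eq, List.length_range]
  have hlt : ∀ v ∈ l, v < n := fun v hv => List.mem_range.1 (h.mem_iff.1 hv)
  have hnd : l.Nodup := h.nodup_iff.2 List.nodup_range
  let f : Fin n → Fin n := fun i => ⟨l[(i : ℕ)]'(by rw [hlen]; exact i.2),
    hlt _ (List.getElem_mem _)⟩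
  have hf : Function.Injective f := by
    intro i j hij
    have h1 : l[(i : ℕ)]'(by rw [hlen]; exact i.2) = l[(j : ℕ)]'(by rw [hlen]; exact j.2) :=
      congrArg Fin.val hij
    exact Fin.ext ((List.Nodup.getElem_inj_iff hnd).1 h1)
  refine ⟨Equiv.ofBijective f (Finite.injective_iff_bijective.1 hf), ?_⟩
  apply List.ext_getElem
  · unfold phi
    rw [List.length_ofFn, hlen]
  · intro i h1 h2
    unfold phi
    rw [List.getElem_ofFn]
    rfl

theorem simple_iff {n : ℕ} (σ : Equiv.Perm (Fin n)) : Simple σ ↔ SimpleL (phi σ) := by
  constructor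
  · intro hS p c s x hl hc hv
    have hlen : n = p.length + c.length + s.length := by
      have := congrArg List.length hl
      unfold phi at this
      rwa [List.length_ofFn, List.length_append, List.length_append] at this
    have hmem := mem_mid (fun i => ((σ i : Fin n) : ℕ)) p c s hl
    have hx1 : x < n := by
      obtain ⟨k, -, -, hk⟩ := (hmem x).1 ((hv x).2 ⟨le_rfl, by omega⟩)
      rw [← hk]
      exact (σ k).2
    have hx2 : x + c.length - 1 < n := by
      obtain ⟨k, -, -, hk⟩ := (hmem (x + c.length - 1)).1 ((hv _).2 ⟨by omega, by omega⟩)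
      rw [← hk]
      exact (σ k).2
    have himg : (Finset.Icc (⟨p.length, by omega⟩ : Fin n) ⟨p.length + c.length - 1, by omega⟩).image σ
        = Finset.Icc (⟨x, hx1⟩ : Fin n) ⟨x + c.length - 1, hx2⟩ := by
      ext w
      rw [Finset.mem_image, Finset.mem_Icc]
      have h1 := (hv w).symm.trans (hmem w)
      constructor
      · rintro ⟨k, hk, rfl⟩
        rw [Finset.mem_Icc, Fin.le_def, Fin.le_def] at hk
        simp only at hk
        have h2 := h1.2 ⟨k, hk.1, by omega, rfl⟩
        rw [Fin.le_def, Fin.le_def]
        simp only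
        omega
      · rintro ⟨h2, h3⟩
        rw [Fin.le_def] at h2 h3
        simp only at h2 h3
        obtain ⟨k, hk1, hk2, hk3⟩ := h1.1 ⟨h2, by omega⟩
        refine ⟨k, ?_, Fin.ext hk3⟩
        rw [Finset.mem_Icc, Fin.le_def, Fin.le_def]
        simp only
        omega
    have huniv := hS _ _ _ _ (by
      rw [Fin.lt_def]
      simp only
      omega) himg
    have h0 : (⟨0, by omega⟩ : Fin n) ∈ Finset.Icc (⟨p.length, by omega⟩ : Fin n)
        ⟨p.length + c.length - 1, by omega⟩ := by rw [huniv]; exact Finset.mem_univ _
    have h1 : (⟨n - 1, by omega⟩ : Fin n) ∈ Finset.Icc (⟨p.length, by omega⟩ : Fin n)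
        ⟨p.length + c.length - 1, by omega⟩ := by rw [huniv]; exact Finset.mem_univ _
    rw [Finset.mem_Icc, Fin.le_def, Fin.le_def] at h0 h1
    simp only at h0 h1
    constructor
    · exact List.length_eq_zero_iff.1 (by omega)
    · exact List.length_eq_zero_iff.1 (by omega)
  · intro hS i j x y hij himg
    have hij' : (i : ℕ) < j := hij
    have hj := j.2
    set l := phi σ with hl
    have hlen : l.length = n := by
      rw [hl]
      unfold phi
      rw [List.length_ofFn]
    set p := l.take i with hp
    set c := (l.drop i).take (j - i + 1) with hc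
    set s := (l.drop i).drop (j - i + 1) with hs
    have hdec : l = p ++ c ++ s := by
      rw [hp, hc, hs, List.append_assoc, List.take_append_drop, List.take_append_drop]
    have hpl : p.length = i := by
      rw [hp, List.length_take, hlen]
      omega
    have hcl : c.length = j - i + 1 := by
      rw [hc, List.length_take, List.length_drop, hlen]
      omega
    have hmem := mem_mid (fun i => ((σ i : Fin n) : ℕ)) p c s (by rw [← hdec, hl]; rfl)
    have hxy : x ≤ y := by
      have h1 : σ i ∈ Finset.Icc x y := by
        rw [← himg]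
        exact Finset.mem_image_of_mem _ (Finset.mem_Icc.2 ⟨le_rfl, hij.le⟩)
      rw [Finset.mem_Icc] at h1
      exact h1.1.trans h1.2
    have hxy' : (x : ℕ) ≤ y := hxy
    have hcard : (y : ℕ) + 1 - x = j + 1 - i := by
      have h1 := congrArg Finset.card himg
      rw [Finset.card_image_of_injective _ σ.injective, Fin.card_Icc, Fin.card_Icc] at h1
      exact h1.symm
    have hps := hS p c s x hdec (by omega) (by
      intro v
      rw [hmem v]
      constructor
      · rintro ⟨k, hk1, hk2, hk3⟩
        have h1 : σ k ∈ Finset.Icc x y := by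
          rw [← himg]
          apply Finset.mem_image_of_mem
          rw [Finset.mem_Icc, Fin.le_def, Fin.le_def]
          omega
        rw [Finset.mem_Icc, Fin.le_def, Fin.le_def] at h1
        omega
      · rintro ⟨h1, h2⟩
        have hvn : v < n := by
          have := y.2
          omega
        have h3 : (⟨v, hvn⟩ : Fin n) ∈ (Finset.Icc i j).image σ := by
          rw [himg, Finset.mem_Icc, Fin.le_def, Fin.le_def]
          simp only
          omega
        obtain ⟨k, hk, hk2⟩ := Finset.mem_image.1 h3
        rw [Finset.mem_Icc, Fin.le_def, Fin.le_def] at hk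
        refine ⟨k, by omega, by omega, ?_⟩
        simp only [hk2])
    have h1 : (i : ℕ) = 0 := by rw [← hpl, hps.1]; rfl
    have h2 : n = j + 1 := by
      have := congrArg List.length hdec
      rw [List.length_append, List.length_append, hlen, hps.2, hpl, hcl, List.length_nil] at this
      omega
    ext k
    simp only [Finset.mem_univ, iff_true]
    rw [Finset.mem_Icc, Fin.le_def, Fin.le_def]
    have := k.2
    omega

end P12

theorem transfer_stm : TransferStm := by
  intro n
  have h1 : {l : List ℕ | l.Perm (List.range n) ∧ SimpleL l ∧ SortableL n l} =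
      P12.phi '' {σ : Equiv.Perm (Fin n) | Simple σ ∧ Sortable σ} := by
    ext l
    constructor
    · rintro ⟨h1, h2, h3⟩
      obtain ⟨σ, rfl⟩ := P12.exists_phi l h1
      exact ⟨σ, ⟨(P12.simple_iff σ).2 h2, h3⟩, rfl⟩
    · rintro ⟨σ, ⟨h2, h3⟩, rfl⟩
      exact ⟨P12.phi_perm σ, (P12.simple_iff σ).1 h2, h3⟩
  rw [h1, Set.ncard_image_of_injective _ P12.phi_inj]
  exact Nat.card_coe_set_eq _

end PopSt
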