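import Pool.Agent.R666.PS.Stms

/-! # PS-2: the automaton is simulated by the machine -/

namespace PopSt

open St

/-- The machine can finish from `M` with the output `0, …, n-1`. -/
def Fin' (n : ℕ) (M : Mach) : Prop := Relation.ReflTransGen Op M ⟨[], [], [], List.range n⟩

theorem f_bypass {n v : ℕ} {inp s1 s2 out out' : List ℕ} (ho : out ++ [v] = out')
    (h : Fin' n ⟨inp, s1, s2, out'⟩) : Fin' n ⟨v :: inp, s1, s2, out⟩ := by
  subst ho
  exact Relation.ReflTransGen.head (Op.bypass v inp s1 s2 out) h

theorem f_push1 {n v : ℕ} {inp s1 s1' s2 out : List ℕ} (hs : v :: s1 = s1')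
    (h : Fin' n ⟨inp, s1', s2, out⟩) : Fin' n ⟨v :: inp, s1, s2, out⟩ := by
  subst hs
  exact Relation.ReflTransGen.head (Op.push1 v inp s1 s2 out) h

theorem f_push2 {n v : ℕ} {inp s1 s2 s2' out : List ℕ} (hs : v :: s2 = s2')
    (h : Fin' n ⟨inp, s1, s2', out⟩) : Fin' n ⟨v :: inp, s1, s2, out⟩ := by
  subst hs
  exact Relation.ReflTransGen.head (Op.push2 v inp s1 s2 out) h

theorem f_pop1 {n : ℕ} {inp s1 s2 out out' : List ℕ} (ho : out ++ s1 = out')
    (h : Fin' n ⟨inp, [], s2, out'⟩) : Fin' n ⟨inp, s1, s2, out⟩ := by
  subst ho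
  exact Relation.ReflTransGen.head (Op.pop1 inp s1 s2 out) h

theorem f_pop2 {n : ℕ} {inp s1 s2 out out' : List ℕ} (ho : out ++ s2 = out')
    (h : Fin' n ⟨inp, s1, [], out'⟩) : Fin' n ⟨inp, s1, s2, out⟩ := by
  subst ho
  exact Relation.ReflTransGen.head (Op.pop2 inp s1 s2 out) h

theorem f_done (n : ℕ) {l : List ℕ} (h : l = List.range n) : Fin' n ⟨[], [], [], l⟩ := by
  subst h
  exact Relation.ReflTransGen.refl

/-- the machine with the stacks swapped -/
def swapM (M : Mach) : Mach := ⟨M.inp, M.s2, M.s1, M.out⟩

theorem op_swap {M N : Mach} (h : Op M N) : Op (swapM M) (swapM N) := by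
  cases h with
  | bypass v inp s1 s2 out => exact Op.bypass v inp s2 s1 out
  | push1 v inp s1 s2 out => exact Op.push2 v inp s2 s1 out
  | push2 v inp s1 s2 out => exact Op.push1 v inp s2 s1 out
  | pop1 inp s1 s2 out => exact Op.pop2 inp s2 s1 out
  | pop2 inp s1 s2 out => exact Op.pop1 inp s2 s1 out

theorem f_swap {n : ℕ} {inp s1 s2 out : List ℕ} (h : Fin' n ⟨inp, s1, s2, out⟩) :
    Fin' n ⟨inp, s2, s1, out⟩ := by
  have := Relation.ReflTransGen.lift (p := Op) swapM (fun _ _ h => op_swap h) _ _ h
  exact this

theorem range_app (a b c : ℕ) (h : c = a + b) :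
    List.range a ++ List.range' a b = List.range c := by
  subst h
  rw [List.range_eq_range', List.range_eq_range']
  have := List.range'_append_1 (s := 0) (m := a) (n := b)
  simpa using this

theorem range_app1 (a c : ℕ) (h : c = a + 1) :
    List.range a ++ [a] = List.range c := by
  subst h
  rw [List.range_succ]

theorem cons_range' (a a' b b' c c' : ℕ) (h : a' = a + 1) (hb : b' = b + 1) (hc : c' = c)
    (hac : c = a) : a :: List.range' a' b = List.range' c' b' := by
  subst h hb hc hac
  rw [List.range'_succ]

theorem acc_Z {v : ℕ} {l : List ℕ} (h : Acc (Z v) l) : l = [v] := by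
  cases h with
  | cons h h' =>
    cases h with
    | Zz v =>
      cases h' with
      | nil => rfl
      | cons h1 _ => cases h1

/-- what acceptance from a state gives for the machine -/
def Sim (n : ℕ) : St → List ℕ → Prop
  | A _ m g r h, l => n = m + g + r + h → Fin' n ⟨l, List.range' (m + g) r, [], List.range m⟩
  | T _ m g r k t h, l => n = m + g + r + k + t + h →
      Fin' n ⟨l, List.range' (m + g) r, List.range' (m + g + r + k) t, List.range m⟩
  | B _ m g r k t, l => n = m + g + r + k + t →
      Fin' n ⟨l, List.range' (m + g) r, List.range' (m + g + r + k) t, List.range m⟩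
  | Z _, _ => True
  | D, _ => True

theorem fin_congr {n : ℕ} {i s1 s2 o s1' s2' o' : List ℕ} (h : Fin' n ⟨i, s1, s2, o⟩)
    (h1 : s1 = s1') (h2 : s2 = s2') (h3 : o = o') : Fin' n ⟨i, s1', s2', o'⟩ := by
  subst h1 h2 h3
  exact h

theorem sim_of_acc (n : ℕ) {s : St} {l : List ℕ} (h : Acc s l) : Sim n s l := by
  induction h with
  | nil => exact trivial
  | @cons s s' v l hst hacc ih =>
    cases hst with
    | Al q m g r h hq =>
      intro hn
      have ih := ih (by omega)
      refine f_bypass (range_app1 _ _ rfl) (fin_congr ih ?_ rfl rfl)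
      congr 1; omega
    | Ar q m g r h hq hq' =>
      intro hn
      have ih := ih (by omega)
      exact f_push1 (cons_range' _ _ _ _ _ _ (by omega) rfl rfl (by omega)) ih
    | Am q m u k r h =>
      intro hn
      have ih := f_swap (ih (by omega))
      refine f_push2 (s2' := List.range' (m + (u + 1)) 1) (by simp [Nat.add_assoc])
        (fin_congr ih ?_ rfl rfl)
      congr 1; omega
    | An q m g r u k =>
      intro hn
      have ih := ih (by omega)
      exact f_push2 (s2' := List.range' (m + g + r + (u + 1)) 1) (by simp [Nat.add_assoc]) ih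
    | At q m g r h =>
      intro hn
      have ih := ih (by omega)
      exact f_push2 (s2' := List.range' (m + g + r + (h + 1)) 1) (by simp [Nat.add_assoc]) ih
    | Af q m r hq =>
      intro hn
      have hl := acc_Z hacc
      subst hl
      refine f_push2 rfl (f_bypass (range_app1 _ _ rfl) (f_pop1 (range_app _ _ _ rfl)
        (f_pop2 (range_app1 _ _ rfl) (f_done n ?_))))
      congr 1; omega
    | Tl q m g r k t h hq =>
      intro hn
      have ih := ih (by omega)
      refine f_bypass (range_app1 _ _ rfl) (fin_congr ih ?_ ?_ rfl)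
      · congr 1; omega
      · congr 1; omega
    | Tr q m g r k t h hq hq' =>
      intro hn
      have ih := ih (by omega)
      refine f_push1 (cons_range' _ _ _ _ _ _ (by omega) rfl rfl (by omega))
        (fin_congr ih rfl ?_ rfl)
      congr 1; omega
    | Tf m r k t h =>
      intro hn
      have ih := f_swap (ih (by omega))
      exact f_bypass (range_app1 _ _ rfl) (f_pop1 (range_app _ _ _ rfl) ih)
    | Tc q m g r k t h hq =>
      intro hn
      have ih := ih (by omega)
      exact f_push2 (cons_range' _ _ _ _ _ _ (by omega) rfl rfl (by omega)) ih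
    | Bl q m g r k t hq =>
      intro hn
      have ih := ih (by omega)
      refine f_bypass (range_app1 _ _ rfl) (fin_congr ih ?_ ?_ rfl)
      · congr 1; omega
      · congr 1; omega
    | Br q m g r k t hq hq' =>
      intro hn
      have ih := ih (by omega)
      refine f_push1 (cons_range' _ _ _ _ _ _ (by omega) rfl rfl (by omega))
        (fin_congr ih rfl ?_ rfl)
      congr 1; omega
    | Bc q m g r k t hq =>
      intro hn
      have ih := ih (by omega)
      exact f_push2 (cons_range' _ _ _ _ _ _ (by omega) rfl rfl (by omega)) ih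
    | Bf m r t =>
      intro hn
      have hl := acc_Z hacc
      subst hl
      refine f_bypass (range_app1 _ _ rfl) (f_pop1 (range_app _ _ _ rfl)
        (f_bypass (range_app1 _ _ rfl) (f_pop2 (range_app _ _ _ rfl)
          (f_done n ?_))))
      congr 1; omega
    | Bg q m r t hq hm =>
      intro hn
      have hl := acc_Z hacc
      subst hl
      refine f_push2 (cons_range' _ _ _ _ _ _ (by omega) rfl rfl rfl)
        (f_bypass (range_app1 _ _ rfl) (f_pop1 (range_app _ _ _ rfl)
        (f_pop2 (range_app _ _ _ rfl) (f_done n ?_))))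
      congr 1; omega
    | Zz v => exact trivial

/-- PS-2 -/
theorem acc_sortable : AccSortableStm := by
  rintro n l ⟨g, h, l', hn, rfl, hacc⟩
  have hs := sim_of_acc n hacc
  have hs := hs (by omega)
  exact f_push1 (s1' := List.range' (0 + (g + 1)) 1) (by simp) hs

end PopSt
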