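import Pool.Agent.R666.PS.Stms

/-! PS-3: the state with two full stacks is a dead end; also helper lemmas for PS-4, 5, 6. -/

namespace PopSt

namespace P3

theorem mem_word {n : ℕ} {p rest : List ℕ} (h : (p ++ rest).Perm (List.range n)) (v : ℕ) :
    v ∈ p ++ rest ↔ v < n := by
  rw [h.mem_iff, List.mem_range]

theorem nodup_word {n : ℕ} {p rest : List ℕ} (h : (p ++ rest).Perm (List.range n)) :
    (p ++ rest).Nodup := h.nodup_iff.2 List.nodup_range

theorem length_of_interval {c : List ℕ} {x k : ℕ} (hn : c.Nodup)
    (h : ∀ v, v ∈ c ↔ x ≤ v ∧ v < x + k) : c.length = k := by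
  have : c.Perm (List.range' x k) := by
    rw [List.perm_ext_iff_of_nodup hn (List.nodup_range')]
    intro a
    rw [h, List.mem_range'_1]
  rw [this.length_eq, List.length_range']

/-- the read set is never a proper interval of size at least two -/
theorem pre_false {n : ℕ} {p rest : List ℕ} (hperm : (p ++ rest).Perm (List.range n))
    (hs : SimpleL (p ++ rest)) {x k : ℕ} (h2 : 2 ≤ k) (hk : k < n)
    (h : ∀ v, v ∈ p ↔ x ≤ v ∧ v < x + k) : False := by
  have hlen : p.length = k := length_of_interval (nodup_word hperm).of_append_left h
  have := hs [] p rest x (by simp) (by omega) (by rw [hlen]; exact h)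
  have h3 := hperm.length_eq
  rw [this.2, List.append_nil, hlen, List.length_range] at h3
  omega

/-- the unread set is never an interval of size at least two, once something was read -/
theorem suf_false {n : ℕ} {p rest : List ℕ} (hperm : (p ++ rest).Perm (List.range n))
    (hs : SimpleL (p ++ rest)) {x k : ℕ} (h2 : 2 ≤ k) (hk : k < n)
    (h : ∀ v, v ∈ rest ↔ x ≤ v ∧ v < x + k) : False := by
  have hlen : rest.length = k := length_of_interval (nodup_word hperm).of_append_right h
  have := hs p rest [] x (by simp) (by omega) (by rw [hlen]; exact h)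
  have h3 := hperm.length_eq
  rw [this.1, List.nil_append, hlen, List.length_range] at h3
  omega

/-- adjacent values are not read consecutively -/
theorem adj_false {n : ℕ} {p rest : List ℕ} {v w : ℕ}
    (hperm : (p ++ v :: rest).Perm (List.range n))
    (hs : SimpleL (p ++ v :: rest)) (hn : 3 ≤ n) (hl : p.getLast? = some w)
    (hvw : v = w + 1 ∨ w = v + 1) : False := by
  obtain ⟨p0, rfl⟩ := List.getLast?_eq_some_iff.1 hl
  have h3 := hperm.length_eq
  rcases hvw with rfl | rfl
  · have := hs p0 [w, w + 1] rest w (by simp) (by simp) (by
      intro t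
      simp only [List.mem_cons, List.not_mem_nil, or_false, List.length_cons, List.length_nil]
      omega)
    rw [this.1, this.2, List.length_range] at h3
    simp at h3
    omega
  · have := hs p0 [v + 1, v] rest v (by simp) (by simp) (by
      intro t
      simp only [List.mem_cons, List.not_mem_nil, or_false, List.length_cons, List.length_nil]
      omega)
    rw [this.1, this.2, List.length_range] at h3
    simp at h3
    omega

theorem append_cons_perm {n : ℕ} {p rest : List ℕ} {v : ℕ}
    (hperm : (p ++ v :: rest).Perm (List.range n)) :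
    ((p ++ [v]) ++ rest).Perm (List.range n) := by
  rw [List.append_assoc]; exact hperm

theorem mem_snoc {p : List ℕ} {v w : ℕ} : w ∈ p ++ [v] ↔ w ∈ p ∨ w = v := by
  rw [List.mem_append, List.mem_singleton]

/-- `v` was just read: it is separated from any smaller value `w` of the word read before,
provided `v - 1` is not smaller than `w` -/
theorem sep_last {p : List ℕ} {w v : ℕ} (hw : w ∈ p) (hwv : w < v) (_hv : v ∉ p) :
    Sep (p ++ [v]) w v := by
  by_cases h : v - 1 ∈ p
  · right
    refine ⟨v - 1, by omega, by omega, ?_⟩
    rw [show v - 1 + 1 = v by omega]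
    exact List.Sublist.append (List.singleton_sublist.2 h) (List.Sublist.refl [v])
  · left
    refine ⟨v - 1, ?_, ?_, by omega⟩
    · rw [mem_snoc]
      rintro (h1 | h1)
      · exact h h1
      · omega
    · by_contra hc
      have : w = v - 1 := by omega
      exact h (this ▸ hw)

end P3

open P3 in
theorem cprime (hNT : NoThreeStm) : CprimeStm := by
  intro n p rest hperm hsort hsimp m g
  induction g generalizing p rest m with
  | zero => intro r h z hg; omega
  | succ g ih =>
    intro r h z _ hh hn hp hz1 hz2 hsub
    have hnd := nodup_word hperm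
    have hmp : m ∉ p := by
      rw [hp]; omega
    have hmr : m ∈ rest := by
      have := (mem_word hperm m).2 (by omega)
      exact (List.mem_append.1 this).resolve_left hmp
    obtain ⟨v, rest', rfl⟩ : ∃ v rest', rest = v :: rest' := by
      cases rest with
      | nil => simp at hmr
      | cons v rest' => exact ⟨v, rest', rfl⟩
    have hperm' := append_cons_perm hperm
    have heq : p ++ v :: rest' = (p ++ [v]) ++ rest' := by simp
    have hsort' : SortableL n ((p ++ [v]) ++ rest') := by rw [← heq]; exact hsort
    have hsimp' : SimpleL ((p ++ [v]) ++ rest') := by rw [← heq]; exact hsimp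
    have hvn : v < n := (mem_word hperm v).1 (by simp)
    have hvp : v ∉ p := by
      intro hc
      have := List.disjoint_of_nodup_append hnd hc
      simp at this
    have hsub' : [z, z + 1].Sublist (p ++ [v]) := hsub.trans (List.sublist_append_left _ _)
    have hzp : z ∈ p := hsub.subset (by simp)
    have hz1p : z + 1 ∈ p := hsub.subset (by simp)
    have hvcases : ¬ (v < m ∨ m + (g + 1) ≤ v ∧ v < m + (g + 1) + r) := by
      rw [← hp]; exact hvp
    by_cases c1 : m + (g + 1) + r ≤ v
    · exact hNT n (p ++ [v]) rest' hperm' hsort' m z (z + 1) v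
        (by rw [mem_snoc]; rintro (h1 | h1); exacts [hmp h1, by omega])
        (by omega) (by omega) (by omega)
        (mem_snoc.2 (Or.inl hzp)) (mem_snoc.2 (Or.inl hz1p)) (mem_snoc.2 (Or.inr rfl))
        (Or.inr ⟨z, le_refl _, le_refl _, hsub'⟩)
        (sep_last hz1p (by omega) hvp)
    by_cases c2 : v = m
    · by_cases c3 : g = 0
      · subst c3 c2
        exact pre_false (x := 0) (k := v + 1 + r) hperm' hsimp' (by omega) (by omega) (by
          intro t
          rw [mem_snoc, hp]
          omega)
      · obtain ⟨g', rfl⟩ := Nat.exists_eq_succ_of_ne_zero c3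
        subst c2
        exact ih (p ++ [v]) rest' hperm' hsort' hsimp' (v + 1) r h z (by omega) hh (by omega)
          (by intro t; rw [mem_snoc, hp]; omega) (by omega) (by omega) hsub'
    by_cases c4 : v = m + g
    · exact ih (p ++ [v]) rest' hperm' hsort' hsimp' m (r + 1) h z (by omega) hh (by omega)
          (by intro t; rw [mem_snoc, hp]; omega) (by omega) (by omega) hsub'
    · refine hNT n (p ++ [v]) rest' hperm' hsort' m v z (z + 1)
        (by rw [mem_snoc]; rintro (h1 | h1); exacts [hmp h1, c2 h1.symm])
        (by omega) (by omega) (by omega)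
        (mem_snoc.2 (Or.inr rfl)) (mem_snoc.2 (Or.inl hzp)) (mem_snoc.2 (Or.inl hz1p))
        (Or.inl ⟨m + g, ?_, by omega, by omega⟩)
        (Or.inr ⟨z, le_refl _, le_refl _, hsub'⟩)
      rw [mem_snoc, hp]
      omega

end PopSt
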