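import Pool.Agent.R666.PS.Piece3

/-! PS-4: the one-step statement for the states `A`. -/

namespace PopSt

open St P3

theorem stepA (_hNT : NoThreeStm) (hC : CprimeStm) : StepAStm := by
  intro q m g r h n p rest hperm hsort hsimp hinv
  obtain ⟨-, ⟨hg, hr, hh, hn⟩, ⟨hm1, hm2, hm3, hm4⟩, hmem⟩ := hinv
  have hp : ∀ v, v ∈ p ↔ v < n ∧ ¬ ((m ≤ v ∧ v < m + g) ∨ (m + g + r ≤ v ∧ v < m + g + r + h)) :=
    hmem
  clear hmem
  have hnd := nodup_word hperm
  have hmp : m ∉ p := by rw [hp]; omega
  have hmr : m ∈ rest := by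
    have := (mem_word hperm m).2 (by omega)
    exact (List.mem_append.1 this).resolve_left hmp
  obtain ⟨v, rest', rfl⟩ : ∃ v rest', rest = v :: rest' := by
    cases rest with
    | nil => simp at hmr
    | cons v rest' => exact ⟨v, rest', rfl⟩
  have hperm' := append_cons_perm hperm
  have heq : p ++ v :: rest' = (p ++ [v]) ++ rest' := by simp
  have hsort' : SortableL n ((p ++ [v]) ++ rest') := by rw [← heq]; exact hsort
  have hsimp' : SimpleL ((p ++ [v]) ++ rest') := by rw [← heq]; exact hsimp
  have hvn : v < n := (mem_word hperm v).1 (by simp)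
  have hvp : v ∉ p := by
    intro hc
    have := List.disjoint_of_nodup_append hnd hc
    simp at this
  have hn3 : 3 ≤ n := by omega
  have hadj : ∀ w, p.getLast? = some w → (v = w + 1 ∨ w = v + 1) → False := fun w h1 h2 =>
    adj_false hperm hsimp hn3 h1 h2
  have hrest : ∀ t, t ∈ rest' ↔ t < n ∧ t ∉ p ++ [v] := by
    intro t
    have hnd' := nodup_word hperm'
    constructor
    · intro ht
      refine ⟨(mem_word hperm' t).1 (List.mem_append_right _ ht), fun hc => ?_⟩
      have := List.disjoint_of_nodup_append hnd' hc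
      exact this ht
    · rintro ⟨h1, h2⟩
      exact (List.mem_append.1 ((mem_word hperm' t).2 h1)).resolve_left h2
  refine ⟨v, rest', ?_⟩
  have hv : (m ≤ v ∧ v < m + g) ∨ (m + g + r ≤ v ∧ v < m + g + r + h) := by
    by_contra hc
    exact hvp ((hp v).2 ⟨hvn, hc⟩)
  rcases hv with ⟨v1, v2⟩ | ⟨v1, v2⟩
  · by_cases c1 : v = m
    · by_cases c2 : g = 1
      · exfalso
        subst c1 c2
        exact pre_false (x := 0) (k := v + 1 + r) hperm' hsimp' (by omega) (by omega) (by
          intro t
          rw [mem_snoc, hp]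
          omega)
      · obtain ⟨g', rfl⟩ : ∃ g', g = g' + 2 := ⟨g - 2, by omega⟩
        subst c1
        refine ⟨_, rfl, Step.Al q v g' r h ?_⟩
        rintro rfl
        obtain ⟨h1, h2⟩ := hm3 rfl
        exact hadj _ h2 (by omega)
    by_cases c2 : v = m + g - 1
    · obtain ⟨g', rfl⟩ : ∃ g', g = g' + 2 := ⟨g - 2, by omega⟩
      have c3 : v = m + g' + 1 := by omega
      subst c3
      refine ⟨_, rfl, Step.Ar q m g' r h ?_ ?_⟩
      · rintro rfl
        exact hadj _ (hm1 rfl).2 (by omega)
      · rintro rfl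
        exact hadj _ (hm2 rfl).2 (by omega)
    · obtain ⟨u, rfl⟩ : ∃ u, v = m + u + 1 := ⟨v - m - 1, by omega⟩
      obtain ⟨k, rfl⟩ : ∃ k, g = u + k + 3 := ⟨g - u - 3, by omega⟩
      exact ⟨_, rfl, Step.Am q m u k r h⟩
  · by_cases c1 : v = m + g + r
    · by_cases c2 : h = 1
      · subst c1 c2
        have hqa : q ≠ Q.a1 := by
          rintro rfl
          obtain ⟨h1, h2⟩ := hm1 rfl
          exact hadj _ h2 (by omega)
        by_cases c3 : g = 1
        · subst c3
          exact ⟨_, rfl, Step.Af q m r hqa⟩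
        · exfalso
          exact suf_false (x := m) (k := g) hperm' hsimp' (by omega) (by omega) (by
            intro t
            rw [hrest, mem_snoc, hp]
            omega)
      · exfalso
        subst c1
        refine hC n (p ++ [m + g + r]) rest' hperm' hsort' hsimp' m g (r + 1) (h - 1) (m + g + r - 1)
          hg (by omega) (by omega) ?_ (by omega) (by omega) ?_
        · intro t
          rw [mem_snoc, hp]
          omega
        · rw [show m + g + r - 1 + 1 = m + g + r by omega]
          refine List.Sublist.append (List.singleton_sublist.2 ?_) (List.Sublist.refl _)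
          rw [hp]
          omega
    by_cases c2 : v = m + g + r + h - 1
    · obtain ⟨h', rfl⟩ : ∃ h', h = h' + 2 := ⟨h - 2, by omega⟩
      have c3 : v = m + g + r + h' + 1 := by omega
      subst c3
      exact ⟨_, rfl, Step.At q m g r h'⟩
    · obtain ⟨u, rfl⟩ : ∃ u, v = m + g + r + u + 1 := ⟨v - (m + g + r) - 1, by omega⟩
      obtain ⟨k, rfl⟩ : ∃ k, h = u + k + 3 := ⟨h - u - 3, by omega⟩
      exact ⟨_, rfl, Step.An q m g r u k⟩

end PopSt
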