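import Pool.Agent.R666.PS.Stms

/-!
# PS-5: StepTStm from NoThreeStm and CprimeStm
-/

namespace PopSt

open St

namespace P5

theorem adj {p rest' : List ℕ} {v w : ℕ} (hs : SimpleL (p ++ v :: rest'))
    (hlast : p.getLast? = some w) (hv : v = w + 1 ∨ w = v + 1)
    (hn : 3 ≤ (p ++ v :: rest').length) : False := by
  obtain ⟨p0, rfl⟩ : ∃ p0, p = p0 ++ [w] := by
    rw [List.getLast?_eq_some_iff] at hlast
    exact hlast
  have key := hs p0 [w, v] rest' (min w v) (by simp) (by simp) (by
    intro u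
    simp only [List.mem_cons, List.not_mem_nil, or_false, List.length_cons, List.length_nil]
    rcases hv with rfl | rfl
    · rw [min_eq_left (by omega)]; omega
    · rw [min_eq_right (by omega)]; omega)
  obtain ⟨h1, h2⟩ := key
  subst h1 h2
  simp at hn

theorem interval_len {c : List ℕ} (hc : c.Nodup) {x K : ℕ}
    (h : ∀ v, v ∈ c ↔ x ≤ v ∧ v < x + K) : c.length = K := by
  have h1 : c.toFinset = Finset.Ico x (x + K) := by
    ext v
    rw [List.mem_toFinset, h, Finset.mem_Ico]
  rw [← List.toFinset_card_of_nodup hc, h1, Nat.card_Ico]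
  omega

theorem sep_last {p : List ℕ} {v w : ℕ} (hw : w ∈ p ++ [v]) (hwv : w < v) :
    Sep (p ++ [v]) w v := by
  by_cases h : v - 1 ∈ p ++ [v]
  · right
    refine ⟨v - 1, by omega, by omega, ?_⟩
    have h1 : v - 1 ∈ p := by
      rcases List.mem_append.1 h with h | h
      · exact h
      · simp at h; omega
    have h2 : v - 1 + 1 = v := by omega
    rw [h2]
    exact List.Sublist.append (List.singleton_sublist.2 h1) (List.Sublist.refl [v])
  · left
    refine ⟨v - 1, h, ?_, by omega⟩
    by_contra hc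
    have : w = v - 1 := by omega
    exact h (this ▸ hw)

theorem suf {p rest' : List ℕ} {v : ℕ} (hs : SimpleL (p ++ v :: rest')) (hnd : rest'.Nodup)
    {x K : ℕ} (hK : 2 ≤ K) (h : ∀ w, w ∈ rest' ↔ x ≤ w ∧ w < x + K) : False := by
  have hl := interval_len hnd h
  have key := hs (p ++ [v]) rest' [] x (by simp) (by omega) (by rw [hl]; exact h)
  simp at key

theorem pre {p rest' : List ℕ} {v : ℕ} (hs : SimpleL (p ++ v :: rest')) (hnd : (p ++ [v]).Nodup)
    {x K : ℕ} (hK : 2 ≤ K) (h : ∀ w, w ∈ p ++ [v] ↔ x ≤ w ∧ w < x + K) (hr : rest' ≠ []) :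
    False := by
  have hl := interval_len hnd h
  have key := hs [] (p ++ [v]) rest' x (by simp) (by omega) (by rw [hl]; exact h)
  exact hr key.2

theorem head {n : ℕ} {p rest : List ℕ} {m : ℕ} (hperm : (p ++ rest).Perm (List.range n))
    (hm : m ∉ p) (hmn : m < n) : ∃ v rest', rest = v :: rest' ∧ v ∉ p ∧ v < n ∧
      (p ++ [v]).Nodup ∧ rest'.Nodup ∧ ((p ++ [v]) ++ rest').Perm (List.range n) ∧
      (∀ w, w ∈ rest' ↔ w < n ∧ w ∉ p ++ [v]) ∧ (p ++ v :: rest').length = n := by
  have hmem : ∀ w, w ∈ p ++ rest ↔ w < n := by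
    intro w
    rw [hperm.mem_iff, List.mem_range]
  have hnd : (p ++ rest).Nodup := hperm.nodup_iff.2 List.nodup_range
  have hr : rest ≠ [] := by
    rintro rfl
    have := (hmem m).2 hmn
    rw [List.append_nil] at this
    exact hm this
  obtain ⟨v, rest', rfl⟩ := List.exists_cons_of_ne_nil hr
  have hnd' : ((p ++ [v]) ++ rest').Nodup := by simpa using hnd
  rw [List.nodup_append'] at hnd
  rw [List.nodup_append'] at hnd'
  have hlen := hperm.length_eq
  rw [List.length_range] at hlen
  refine ⟨v, rest', rfl, ?_, ?_, hnd'.1, hnd'.2.1, by simpa using hperm, ?_, hlen⟩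
  · intro hvp
    exact hnd.2.2 hvp (by simp)
  · exact (hmem v).1 (by simp)
  · intro w
    constructor
    · intro hw
      exact ⟨(hmem w).1 (by simp [hw]), fun h => hnd'.2.2 h hw⟩
    · rintro ⟨h1, h2⟩
      have h3 := (hmem w).2 h1
      simp only [List.mem_append, List.mem_cons, List.not_mem_nil, or_false] at h3 h2
      tauto

end P5

theorem stepTStm_of (h3 : NoThreeStm) (hC : CprimeStm) : StepTStm := by
  intro q m g r k t h n p rest hperm hsort hsimp hinv
  obtain ⟨-, ⟨hg, hr, hk, ht, hh, hsum⟩, ⟨ha1, ha2, ho, hx⟩, hp⟩ := hinv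
  simp only [Unread] at hp
  have hmp : m ∉ p := by rw [hp]; omega
  obtain ⟨v, rest', rfl, hvp, hvn, hnd1, hnd2, hperm', hrest', hlen⟩ := P5.head hperm hmp (by omega)
  have hn3 : 3 ≤ (p ++ v :: rest').length := by omega
  have hsort' : SortableL n ((p ++ [v]) ++ rest') := by simpa using hsort
  have hsimp' : SimpleL ((p ++ [v]) ++ rest') := by simpa using hsimp
  have hvU : ¬ v ∈ p := hvp
  rw [hp] at hvU
  have hp' : ∀ w, w ∈ p ++ [v] ↔ (w < n ∧ ¬((m ≤ w ∧ w < m + g) ∨
      (m + g + r ≤ w ∧ w < m + g + r + k) ∨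
      (m + g + r + k + t ≤ w ∧ w < m + g + r + k + t + h))) ∨ w = v := by
    intro w
    rw [List.mem_append, hp, List.mem_singleton]
  by_cases hs1 : v < m + g
  · -- slot 1
    have hv1 : m ≤ v := by omega
    by_cases hvm : v = m
    · subst hvm
      by_cases hg1 : g = 1
      · subst hg1
        cases q with
        | a1 => exact (P5.adj hsimp (ha1 rfl).2 (Or.inr rfl) hn3).elim
        | a2 => exact (P5.adj hsimp (ha2 rfl).2 (Or.inr rfl) hn3).elim
        | o => exact (P5.adj hsimp (ho rfl).2 (Or.inl (by have := (ho rfl).1; omega)) hn3).elim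
        | x => exact ⟨v, rest', _, rfl, Step.Tf v r k t h⟩
      · obtain ⟨g', rfl⟩ : ∃ g', g = g' + 2 := ⟨g - 2, by omega⟩
        have hq : q ≠ Q.o := by
          rintro rfl
          exact P5.adj hsimp (ho rfl).2 (Or.inl (by have := (ho rfl).1; omega)) hn3
        exact ⟨v, rest', _, rfl, Step.Tl q v g' r k t h hq⟩
    · by_cases hvt : v = m + g - 1
      · obtain ⟨g', rfl⟩ : ∃ g', g = g' + 2 := ⟨g - 2, by omega⟩
        have hv' : v = m + g' + 1 := by omega
        subst hv'
        have hq1 : q ≠ Q.a1 := by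
          rintro rfl
          exact P5.adj hsimp (ha1 rfl).2 (Or.inr (by omega)) hn3
        have hq2 : q ≠ Q.a2 := by
          rintro rfl
          exact P5.adj hsimp (ha2 rfl).2 (Or.inr (by omega)) hn3
        exact ⟨_, rest', _, rfl, Step.Tr q m g' r k t h hq1 hq2⟩
      · exfalso
        refine h3 n (p ++ [v]) rest' hperm' hsort' m v (m + g) (m + g + r + k) ?_ ?_ ?_ ?_ ?_ ?_ ?_
          (Or.inl ⟨m + g - 1, ?_, ?_, ?_⟩) (Or.inl ⟨m + g + r, ?_, ?_, ?_⟩)
        all_goals first | omega | (rw [hp']; omega)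
  · by_cases hs2 : v < m + g + r + k
    · have hv2 : m + g + r ≤ v := by omega
      by_cases hvt : v = m + g + r + k - 1
      · by_cases hk1 : k = 1
        · exfalso
          subst hk1
          refine hC n (p ++ [v]) rest' hperm' hsort' hsimp' m g (r + 1 + t) h (m + g + r - 1) hg hh
            (by omega) ?_ (by omega) (by omega) ?_
          · intro w; rw [hp']; omega
          · have h1 : m + g + r - 1 + 1 = v := by omega
            rw [h1]
            exact List.Sublist.append (List.singleton_sublist.2 (by rw [hp]; omega))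
              (List.Sublist.refl [v])
        · obtain ⟨k', rfl⟩ : ∃ k', k = k' + 2 := ⟨k - 2, by omega⟩
          have hv' : v = m + g + r + k' + 1 := by omega
          subst hv'
          have hq : q ≠ Q.x := by
            rintro rfl
            exact P5.adj hsimp (hx rfl) (Or.inr (by omega)) hn3
          exact ⟨_, rest', _, rfl, Step.Tc q m g r k' t h hq⟩
      · exfalso
        refine h3 n (p ++ [v]) rest' hperm' hsort' m (m + g) v (m + g + r + k) ?_ ?_ ?_ ?_ ?_ ?_ ?_
          (P5.sep_last ?_ ?_) (Or.inl ⟨m + g + r + k - 1, ?_, ?_, ?_⟩)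
        all_goals first | omega | (rw [hp']; omega)
    · exfalso
      refine h3 n (p ++ [v]) rest' hperm' hsort' m (m + g) (m + g + r + k) v ?_ ?_ ?_ ?_ ?_ ?_ ?_
        (Or.inl ⟨m + g + r, ?_, ?_, ?_⟩) (P5.sep_last ?_ ?_)
      all_goals first | omega | (rw [hp']; omega)

end PopSt
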