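import Pool.Agent.R666.PS.Stms

/-! # PS-6: the steps from the states `B` -/

namespace PopSt

open St

namespace P6

/-- a factor which is an interval of at least two values is everything -/
lemma int_factor {l p c s : List ℕ} (hs : SimpleL l) (hnd : l.Nodup) (hl : l = p ++ c ++ s)
    {x y : ℕ} (hxy : x + 2 ≤ y) (hc : ∀ u, u ∈ c ↔ x ≤ u ∧ u < y) : p = [] ∧ s = [] := by
  have hcn : c.Nodup := by
    rw [hl] at hnd
    exact (List.nodup_append.1 (List.nodup_append.1 hnd).1).2.1
  have hcard : c.length = y - x := by
    rw [← List.toFinset_card_of_nodup hcn]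
    have : c.toFinset = Finset.Ico x y := by
      ext u
      rw [List.mem_toFinset, hc, Finset.mem_Ico]
    rw [this, Nat.card_Ico]
  apply hs p c s x hl (by omega)
  intro v
  rw [hc, hcard]
  constructor
  · rintro ⟨h1, h2⟩; exact ⟨h1, by omega⟩
  · rintro ⟨h1, h2⟩; exact ⟨h1, by omega⟩

/-- adjacent values -/
lemma adj {p rest : List ℕ} {n v w : ℕ} (hperm : (p ++ v :: rest).Perm (List.range n))
    (hs : SimpleL (p ++ v :: rest)) (hn : 3 ≤ n) (hw : p.getLast? = some w)
    (h : v = w + 1 ∨ w = v + 1) : False := by
  obtain ⟨p0, rfl⟩ := List.getLast?_eq_some_iff.1 hw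
  have hnd : (p0 ++ [w] ++ v :: rest).Nodup := hperm.nodup_iff.2 List.nodup_range
  have hl : p0 ++ [w] ++ v :: rest = p0 ++ [w, v] ++ rest := by simp
  have hlen : (p0 ++ [w] ++ v :: rest).length = n := by
    rw [hperm.length_eq, List.length_range]
  obtain ⟨h1, h2⟩ : p0 = [] ∧ rest = [] := by
    rcases h with h | h
    · apply int_factor hs hnd hl (x := w) (y := w + 2) le_rfl
      intro u
      simp only [List.mem_cons, List.not_mem_nil, or_false]
      omega
    · apply int_factor hs hnd hl (x := v) (y := v + 2) le_rfl
      intro u
      simp only [List.mem_cons, List.not_mem_nil, or_false]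
      omega
  rw [h1, h2] at hlen
  simp at hlen
  omega

end P6

open P6 in
/-- PS-6 -/
theorem stepB (h3 : NoThreeStm) : StepBStm := by
  intro q m g r k t n p rest hperm hsort hsimp hinv
  obtain ⟨hp, ⟨hg, hr, hk, ht, hn⟩, ⟨ma1, ma2, mo, mx⟩, hmem⟩ := hinv
  have hU : ∀ v, Unread (B q m g r k t) v ↔
      ((m ≤ v ∧ v < m + g) ∨ (m + g + r ≤ v ∧ v < m + g + r + k)) := fun v => Iff.rfl
  have hn3 : 3 ≤ n := by omega
  have hall : ∀ v, v ∈ p ++ rest ↔ v < n := by
    intro v
    rw [hperm.mem_iff, List.mem_range]
  have hnd : (p ++ rest).Nodup := hperm.nodup_iff.2 List.nodup_range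
  -- `rest` is not empty
  cases rest with
  | nil =>
    exfalso
    have h1 := (hall m).2 (by omega)
    rw [List.append_nil] at h1
    have h2 := (hmem m).1 h1
    exact h2.2 ((hU m).2 (by omega))
  | cons v rest' =>
    have hvp : v ∉ p := by
      intro h
      exact (List.disjoint_of_nodup_append hnd) h List.mem_cons_self
    have hvn : v < n := (hall v).1 (List.mem_append_right _ List.mem_cons_self)
    have hvU : (m ≤ v ∧ v < m + g) ∨ (m + g + r ≤ v ∧ v < m + g + r + k) := by
      by_contra h
      exact hvp ((hmem v).2 ⟨hvn, fun h' => h ((hU v).1 h')⟩)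
    have hmem' : ∀ u, u ∈ p ↔ u < n ∧ ¬ ((m ≤ u ∧ u < m + g) ∨ (m + g + r ≤ u ∧ u < m + g + r + k)) := by
      intro u
      rw [hmem, hU]
    have hmemv : ∀ u, u ∈ p ++ [v] ↔ u ∈ p ∨ u = v := by
      intro u
      rw [List.mem_append, List.mem_singleton]
    have hrest : ∀ u, u ∈ rest' ↔ u < n ∧ u ∉ p ∧ u ≠ v := by
      intro u
      constructor
      · intro h
        refine ⟨(hall u).1 (List.mem_append_right _ (List.mem_cons_of_mem _ h)), ?_, ?_⟩
        · intro h'
          exact (List.disjoint_of_nodup_append hnd) h' (List.mem_cons_of_mem _ h)
        · rintro rfl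
          have := (List.nodup_append.1 hnd).2.1
          exact (List.nodup_cons.1 this).1 h
      · rintro ⟨h1, h2, h3⟩
        have := (hall u).2 h1
        rw [List.mem_append, List.mem_cons] at this
        tauto
    have hl : p ++ v :: rest' = (p ++ [v]) ++ rest' := by simp
    have hperm' : ((p ++ [v]) ++ rest').Perm (List.range n) := by rw [← hl]; exact hperm
    have hsort' : SortableL n ((p ++ [v]) ++ rest') := by rw [← hl]; exact hsort
    -- suffix argument
    have hsuf : ∀ x y : ℕ, x + 2 ≤ y → (∀ u, u ∈ rest' ↔ x ≤ u ∧ u < y) → False := by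
      intro x y hxy h
      have := int_factor hsimp hnd (p := p ++ [v]) (c := rest') (s := []) (by simp) hxy h
      have h2 := this.1
      simp at h2
    have hpre : ∀ x y : ℕ, x + 2 ≤ y → (∀ u, u ∈ p ++ [v] ↔ x ≤ u ∧ u < y) → rest' = [] := by
      intro x y hxy h
      exact (int_factor hsimp hnd (p := []) (c := p ++ [v]) (s := rest') (by simp) hxy h).2
    have hadj : ∀ w, p.getLast? = some w → (v = w + 1 ∨ w = v + 1) → False :=
      fun w h1 h2 => adj hperm hsimp hn3 h1 h2
    rcases hvU with ⟨hv1, hv2⟩ | ⟨hv1, hv2⟩
    · -- the first slot
      by_cases hvm : v = m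
      · by_cases hg1 : g = 1
        · -- `Bf`
          have hqx : q = Q.x := by
            cases q with
            | a1 => exact (hadj _ (ma1 rfl).2 (by omega)).elim
            | a2 => exact (hadj _ (ma2 rfl).2 (by omega)).elim
            | o =>
              have h1 := mo rfl
              exact (hadj _ h1.2 (by omega)).elim
            | x => rfl
          have hk1 : k = 1 := by
            by_contra hk1
            apply hsuf (m + g + r) (m + g + r + k) (by omega)
            intro u
            rw [hrest, hmem']
            omega
          subst hqx hg1 hk1 hvm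
          exact ⟨v, rest', _, rfl, Step.Bf v r t⟩
        · -- `Bl`
          have hqo : q ≠ Q.o := by
            intro h
            have h1 := mo h
            exact hadj _ h1.2 (by omega)
          obtain ⟨g', rfl⟩ : ∃ g', g = g' + 2 := ⟨g - 2, by omega⟩
          subst hvm
          exact ⟨v, rest', _, rfl, Step.Bl q v g' r k t hqo⟩
      · by_cases hvt : v = m + g - 1
        · -- `Br`
          have hq1 : q ≠ Q.a1 := by
            intro h
            exact hadj _ (ma1 h).2 (by omega)
          have hq2 : q ≠ Q.a2 := by
            intro h
            exact hadj _ (ma2 h).2 (by omega)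
          obtain ⟨g', rfl⟩ : ∃ g', g = g' + 2 := ⟨g - 2, by omega⟩
          have hv' : v = m + g' + 1 := by omega
          subst hv'
          exact ⟨_, rest', _, rfl, Step.Br q m g' r k t hq1 hq2⟩
        · exfalso
          refine h3 n (p ++ [v]) rest' hperm' hsort' m v (m + g) (m + g + r + k) ?_ (by omega)
            (by omega) (by omega) ?_ ?_ ?_ ?_ ?_
          · rw [hmemv, hmem']; omega
          · rw [hmemv]; exact Or.inr rfl
          · rw [hmemv, hmem']; omega
          · rw [hmemv, hmem']; omega
          · exact Or.inl ⟨m + g - 1, by rw [hmemv, hmem']; omega, by omega, by omega⟩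
          · exact Or.inl ⟨m + g + r, by rw [hmemv, hmem']; omega, by omega, by omega⟩
    · -- the second slot
      by_cases hvt : v = m + g + r + k - 1
      · have hqx : q ≠ Q.x := by
          intro h
          exact hadj _ (mx h) (by omega)
        by_cases hk1 : k = 1
        · -- `Bg`
          have hg1 : g = 1 := by
            by_contra hg1
            apply hsuf m (m + g) (by omega)
            intro u
            rw [hrest, hmem']
            omega
          have hqa1 : q ≠ Q.a1 := by
            intro h
            have h1 := ma1 h
            exact hadj _ h1.2 (by omega)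
          have hm : 0 < m := by
            by_contra hm
            have h1 : rest' = [] := by
              apply hpre 1 n (by omega)
              intro u
              rw [hmemv, hmem']
              omega
            have h2 : (0 : ℕ) ∈ rest' := by
              rw [hrest, hmem']
              omega
            rw [h1] at h2
            exact List.not_mem_nil h2
          have hq : q = Q.o ∨ q = Q.a2 := by
            cases q with
            | a1 => exact absurd rfl hqa1
            | a2 => exact Or.inr rfl
            | o => exact Or.inl rfl
            | x => exact absurd rfl hqx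
          subst hg1 hk1
          have hv' : v = m + 1 + r := by omega
          subst hv'
          exact ⟨_, rest', _, rfl, Step.Bg q m r t hq hm⟩
        · -- `Bc`
          obtain ⟨k', rfl⟩ : ∃ k', k = k' + 2 := ⟨k - 2, by omega⟩
          have hv' : v = m + g + r + k' + 1 := by omega
          subst hv'
          exact ⟨_, rest', _, rfl, Step.Bc q m g r k' t hqx⟩
      · exfalso
        refine h3 n (p ++ [v]) rest' hperm' hsort' m (m + g) v (m + g + r + k) ?_ (by omega)
          (by omega) (by omega) ?_ ?_ ?_ ?_ ?_
        · rw [hmemv, hmem']; omega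
        · rw [hmemv, hmem']; omega
        · rw [hmemv]; exact Or.inr rfl
        · rw [hmemv, hmem']; omega
        · by_cases hv0 : v - 1 ∈ p ++ [v]
          · right
            refine ⟨v - 1, by omega, by omega, ?_⟩
            have h1 : v - 1 ∈ p := by
              rw [hmemv] at hv0
              rcases hv0 with h | h
              · exact h
              · omega
            have h2 : [v - 1, v - 1 + 1] = [v - 1] ++ [v] := by
              have : v - 1 + 1 = v := by omega
              rw [this]
              rfl
            rw [h2]
            exact (List.singleton_sublist.2 h1).append (List.Sublist.refl _)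
          · left
            refine ⟨v - 1, hv0, ?_, by omega⟩
            have h1 : v - 1 ∉ p := fun h => hv0 ((hmemv _).2 (Or.inl h))
            rw [hmem'] at h1
            omega
        · exact Or.inl ⟨m + g + r + k - 1, by rw [hmemv, hmem']; omega, by omega, by omega⟩

end PopSt
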