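import Pool.Agent.R666.PS.Stms

namespace PopSt

open St

namespace P7

theorem step_A {q : Q} {m g r h v : ℕ} {s' : St} (hst : Step (A q m g r h) v s') :
    (∃ g', q ≠ Q.o ∧ g = g' + 2 ∧ v = m ∧ s' = A Q.o (m + 1) (g' + 1) r h) ∨
    (∃ g', q ≠ Q.a1 ∧ q ≠ Q.a2 ∧ g = g' + 2 ∧ v = m + g' + 1 ∧
      s' = A Q.a2 m (g' + 1) (r + 1) h) ∨
    (∃ u k, g = u + k + 3 ∧ v = m + u + 1 ∧ s' = T Q.a1 m (u + 1) 1 (k + 1) r h) ∨
    (∃ u k, h = u + k + 3 ∧ v = m + g + r + u + 1 ∧ s' = T Q.x m g r (u + 1) 1 (k + 1)) ∨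
    (∃ h', h = h' + 2 ∧ v = m + g + r + h' + 1 ∧ s' = B Q.x m g r (h' + 1) 1) ∨
    (q ≠ Q.a1 ∧ g = 1 ∧ h = 1 ∧ v = m + 1 + r ∧ s' = Z m) := by
  cases hst with
  | Al _ _ g' _ _ hq => exact Or.inl ⟨g', hq, rfl, rfl, rfl⟩
  | Ar _ _ g' _ _ hq hq' => exact Or.inr (Or.inl ⟨g', hq, hq', rfl, rfl, rfl⟩)
  | Am _ _ u k => exact Or.inr (Or.inr (Or.inl ⟨u, k, rfl, rfl, rfl⟩))
  | An _ _ _ _ u k => exact Or.inr (Or.inr (Or.inr (Or.inl ⟨u, k, rfl, rfl, rfl⟩)))
  | At _ _ _ _ h' => exact Or.inr (Or.inr (Or.inr (Or.inr (Or.inl ⟨h', rfl, rfl, rfl⟩))))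
  | Af _ _ _ hq => exact Or.inr (Or.inr (Or.inr (Or.inr (Or.inr ⟨hq, rfl, rfl, rfl, rfl⟩))))

theorem step_T {q : Q} {m g r k t h v : ℕ} {s' : St} (hst : Step (T q m g r k t h) v s') :
    (∃ g', q ≠ Q.o ∧ g = g' + 2 ∧ v = m ∧ s' = T Q.o (m + 1) (g' + 1) r k t h) ∨
    (∃ g', q ≠ Q.a1 ∧ q ≠ Q.a2 ∧ g = g' + 2 ∧ v = m + g' + 1 ∧
      s' = T Q.a2 m (g' + 1) (r + 1) k t h) ∨
    (q = Q.x ∧ g = 1 ∧ v = m ∧ s' = A Q.x (m + 1 + r) k t h) ∨
    (∃ k', q ≠ Q.x ∧ k = k' + 2 ∧ v = m + g + r + k' + 1 ∧
      s' = T Q.x m g r (k' + 1) (t + 1) h) := by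
  cases hst with
  | Tl _ _ g' _ _ _ _ hq => exact Or.inl ⟨g', hq, rfl, rfl, rfl⟩
  | Tr _ _ g' _ _ _ _ hq hq' => exact Or.inr (Or.inl ⟨g', hq, hq', rfl, rfl, rfl⟩)
  | Tf => exact Or.inr (Or.inr (Or.inl ⟨rfl, rfl, rfl, rfl⟩))
  | Tc _ _ _ _ k' _ _ hq => exact Or.inr (Or.inr (Or.inr ⟨k', hq, rfl, rfl, rfl⟩))

theorem step_B {q : Q} {m g r k t v : ℕ} {s' : St} (hst : Step (B q m g r k t) v s') :
    (∃ g', q ≠ Q.o ∧ g = g' + 2 ∧ v = m ∧ s' = B Q.o (m + 1) (g' + 1) r k t) ∨
    (∃ g', q ≠ Q.a1 ∧ q ≠ Q.a2 ∧ g = g' + 2 ∧ v = m + g' + 1 ∧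
      s' = B Q.a2 m (g' + 1) (r + 1) k t) ∨
    (∃ k', q ≠ Q.x ∧ k = k' + 2 ∧ v = m + g + r + k' + 1 ∧
      s' = B Q.x m g r (k' + 1) (t + 1)) ∨
    (q = Q.x ∧ g = 1 ∧ k = 1 ∧ v = m ∧ s' = Z (m + 1 + r)) ∨
    ((q = Q.o ∨ q = Q.a2) ∧ 0 < m ∧ g = 1 ∧ k = 1 ∧ v = m + 1 + r ∧ s' = Z m) := by
  cases hst with
  | Bl _ _ g' _ _ _ hq => exact Or.inl ⟨g', hq, rfl, rfl, rfl⟩
  | Br _ _ g' _ _ _ hq hq' => exact Or.inr (Or.inl ⟨g', hq, hq', rfl, rfl, rfl⟩)
  | Bc _ _ _ _ k' _ hq => exact Or.inr (Or.inr (Or.inl ⟨k', hq, rfl, rfl, rfl⟩))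
  | Bf => exact Or.inr (Or.inr (Or.inr (Or.inl ⟨rfl, rfl, rfl, rfl, rfl⟩)))
  | Bg _ _ _ _ hq hm => exact Or.inr (Or.inr (Or.inr (Or.inr ⟨hq, hm, rfl, rfl, rfl, rfl⟩)))

end P7

open P7

theorem unreadStm : UnreadStm := by
  intro s l h
  induction h with
  | nil => exact ⟨List.nodup_nil, by simp [Unread]⟩
  | @cons s s' v l hst hacc ih =>
    obtain ⟨h1, h2⟩ := ih
    have key : ∀ w, (w = v ∨ Unread s' w) ↔ Unread s w := by
      intro w
      cases hst <;> simp only [Unread, or_false] <;> omega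
    refine ⟨List.nodup_cons.2 ⟨?_, h1⟩, ?_⟩
    · rw [h2]
      cases hst <;> simp only [Unread, not_false_eq_true] <;> omega
    · intro w
      rw [List.mem_cons, h2 w, key w]

theorem P7.head_notMem {s : St} {v : ℕ} {c s' : List ℕ} (ha : Acc s (v :: (c ++ s'))) :
    ∀ w ∈ c, w ≠ v := by
  intro w hw he
  subst he
  have := (unreadStm _ _ ha).1
  rw [List.nodup_cons] at this
  exact this.1 (by simp [hw])

theorem ex1Stm : Ex1Stm := by
  constructor
  · intro c
    induction c with
    | nil => intro s' q m g r k t h hq hg ha hc; simp only [List.length_nil]; omega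
    | cons v c ih =>
      intro s' q m g r k t h hq hg ha hc
      have hv := hc v (by simp)
      rw [List.cons_append] at ha
      have hne := head_notMem ha
      have hc' : ∀ w ∈ c, m ≤ w ∧ w < m + g ∧ w ≠ v :=
        fun w hw => ⟨(hc w (by simp [hw])).1, (hc w (by simp [hw])).2, hne w hw⟩
      rw [List.length_cons]
      cases ha with
      | cons hst hacc =>
        rcases step_T hst with ⟨g', h1, h2, h3, h4⟩ | ⟨g', h1, h1', h2, h3, h4⟩ |
          ⟨h1, h2, h3, h4⟩ | ⟨k', h1, h2, h3, h4⟩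
        · subst h4
          have := ih s' Q.o (m + 1) (g' + 1) r k t h (by decide) (by omega) hacc (by
            intro w hw
            have h5 := hc' w hw
            omega)
          omega
        · subst h4
          have := ih s' Q.a2 m (g' + 1) (r + 1) k t h (by decide) (by omega) hacc (by
            intro w hw
            have h5 := hc' w hw
            omega)
          omega
        · exact absurd h1 hq
        · omega
  · intro c
    induction c with
    | nil => intro s' q m g r k t hq hg ha hc; simp only [List.length_nil]; omega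
    | cons v c ih =>
      intro s' q m g r k t hq hg ha hc
      have hv := hc v (by simp)
      rw [List.cons_append] at ha
      have hne := head_notMem ha
      have hc' : ∀ w ∈ c, m ≤ w ∧ w < m + g ∧ w ≠ v :=
        fun w hw => ⟨(hc w (by simp [hw])).1, (hc w (by simp [hw])).2, hne w hw⟩
      rw [List.length_cons]
      cases ha with
      | cons hst hacc =>
        rcases step_B hst with ⟨g', h1, h2, h3, h4⟩ | ⟨g', h1, h1', h2, h3, h4⟩ |
          ⟨k', h1, h2, h3, h4⟩ | ⟨h1, h2, h2', h3, h4⟩ | ⟨h1, h1', h2, h2', h3, h4⟩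
        · subst h4
          have := ih s' Q.o (m + 1) (g' + 1) r k t (by decide) (by omega) hacc (by
            intro w hw
            have h5 := hc' w hw
            omega)
          omega
        · subst h4
          have := ih s' Q.a2 m (g' + 1) (r + 1) k t (by decide) (by omega) hacc (by
            intro w hw
            have h5 := hc' w hw
            omega)
          omega
        · omega
        · exact absurd h1 hq
        · omega

theorem ex2Stm : Ex2Stm := by
  intro c
  induction c with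
  | nil => intro s' q m g r k t h ha hm; simp
  | cons v c ih =>
    intro s' q m g r k t h ha hm
    rw [List.mem_cons, not_or] at hm
    rw [List.cons_append] at ha
    cases ha with
    | cons hst hacc =>
      rcases step_T hst with ⟨g', h1, h2, h3, h4⟩ | ⟨g', h1, h1', h2, h3, h4⟩ |
          ⟨h1, h2, h3, h4⟩ | ⟨k', h1, h2, h3, h4⟩
      · exact absurd h3.symm hm.1
      · subst h4
        have := ih s' Q.a2 m (g' + 1) (r + 1) k t h hacc hm.2
        rw [List.mem_cons, not_or]
        refine ⟨by omega, ?_⟩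
        have e : m + g + r = m + (g' + 1) + (r + 1) := by omega
        rw [e]
        exact this
      · exact absurd h3.symm hm.1
      · subst h4
        have := ih s' Q.x m g r (k' + 1) (t + 1) h hacc hm.2
        rw [List.mem_cons, not_or]
        exact ⟨by omega, this⟩

theorem P7.ex3aux : ∀ (c : List ℕ),
    (∀ (s' : List ℕ) (q : Q) (m g r h : ℕ), 1 ≤ g →
      Acc (A q m g r h) (c ++ s') → (∀ v ∈ c, m ≤ v ∧ v < m + g) → c.length < g) ∧
    (∀ (s' : List ℕ) (q : Q) (m g r k t h : ℕ), 1 ≤ g → 1 ≤ k →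
      Acc (T q m g r k t h) (c ++ s') →
      (∀ v ∈ c, (m ≤ v ∧ v < m + g) ∨ (m + g + r ≤ v ∧ v < m + g + r + k)) →
        c.length < g + k) := by
  intro c
  induction c with
  | nil =>
    exact ⟨fun s' q m g r h hg _ _ => by simp only [List.length_nil]; omega,
      fun s' q m g r k t h hg hk _ _ => by simp only [List.length_nil]; omega⟩
  | cons v c ih =>
    obtain ⟨ih1, ih2⟩ := ih
    constructor
    · intro s' q m g r h hg ha hc
      have hv := hc v (by simp)
      rw [List.cons_append] at ha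
      have hne := head_notMem ha
      have hc' : ∀ w ∈ c, m ≤ w ∧ w < m + g ∧ w ≠ v :=
        fun w hw => ⟨(hc w (by simp [hw])).1, (hc w (by simp [hw])).2, hne w hw⟩
      rw [List.length_cons]
      cases ha with
      | cons hst hacc =>
        rcases step_A hst with ⟨g', h1, h2, h3, h4⟩ | ⟨g', h1, h1', h2, h3, h4⟩ |
          ⟨u, k, h2, h3, h4⟩ | ⟨u, k, h2, h3, h4⟩ | ⟨h', h2, h3, h4⟩ | ⟨h1, h2, h2', h3, h4⟩
        · subst h4
          have := ih1 s' Q.o (m + 1) (g' + 1) r h (by omega) hacc (by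
            intro w hw
            have h5 := hc' w hw
            omega)
          omega
        · subst h4
          have := ih1 s' Q.a2 m (g' + 1) (r + 1) h (by omega) hacc (by
            intro w hw
            have h5 := hc' w hw
            omega)
          omega
        · subst h4
          have := ih2 s' Q.a1 m (u + 1) 1 (k + 1) r h (by omega) (by omega) hacc (by
            intro w hw
            have h5 := hc' w hw
            omega)
          omega
        · omega
        · omega
        · omega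
    · intro s' q m g r k t h hg hk ha hc
      have hv := hc v (by simp)
      rw [List.cons_append] at ha
      have hne := head_notMem ha
      have hc' : ∀ w ∈ c, ((m ≤ w ∧ w < m + g) ∨ (m + g + r ≤ w ∧ w < m + g + r + k)) ∧ w ≠ v :=
        fun w hw => ⟨hc w (by simp [hw]), hne w hw⟩
      rw [List.length_cons]
      cases ha with
      | cons hst hacc =>
        rcases step_T hst with ⟨g', h1, h2, h3, h4⟩ | ⟨g', h1, h1', h2, h3, h4⟩ |
          ⟨h1, h2, h3, h4⟩ | ⟨k', h1, h2, h3, h4⟩
        · subst h4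
          have := ih2 s' Q.o (m + 1) (g' + 1) r k t h (by omega) (by omega) hacc (by
            intro w hw
            have h5 := hc' w hw
            omega)
          omega
        · subst h4
          have := ih2 s' Q.a2 m (g' + 1) (r + 1) k t h (by omega) (by omega) hacc (by
            intro w hw
            have h5 := hc' w hw
            omega)
          omega
        · subst h4
          have := ih1 s' Q.x (m + 1 + r) k t h (by omega) hacc (by
            intro w hw
            have h5 := hc' w hw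
            omega)
          omega
        · subst h4
          have := ih2 s' Q.x m g r (k' + 1) (t + 1) h (by omega) (by omega) hacc (by
            intro w hw
            have h5 := hc' w hw
            omega)
          omega

theorem ex3Stm : Ex3Stm :=
  ⟨fun c s' q m g r h => (ex3aux c).1 s' q m g r h,
    fun c s' q m g r k t h => (ex3aux c).2 s' q m g r k t h⟩

theorem ex5Stm : Ex5Stm := by
  intro c
  induction c with
  | nil => intro s' q m g r k t h hq hg hk ha hc ht; simp only [List.length_nil]; omega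
  | cons v c ih =>
    intro s' q m g r k t h hq hg hk ha hc ht
    have hv := hc v (by simp)
    rw [List.cons_append] at ha
    have hne := head_notMem ha
    have hc' : ∀ w ∈ c, ((m ≤ w ∧ w < m + g) ∨ (m + g + r ≤ w ∧ w < m + g + r + k)) ∧ w ≠ v :=
      fun w hw => ⟨hc w (by simp [hw]), hne w hw⟩
    rw [List.mem_cons, not_or] at ht
    rw [List.length_cons]
    cases ha with
    | cons hst hacc =>
      rcases step_T hst with ⟨g', h1, h2, h3, h4⟩ | ⟨g', h1, h1', h2, h3, h4⟩ |
          ⟨h1, h2, h3, h4⟩ | ⟨k', h1, h2, h3, h4⟩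
      · subst h4
        have := ih s' Q.o (m + 1) (g' + 1) r k t h (by decide) (by omega) (by omega) hacc (by
          intro w hw
          have h5 := hc' w hw
          omega) (by
          have e : m + 1 + (g' + 1) + r + k - 1 = m + g + r + k - 1 := by omega
          rw [e]; exact ht.2)
        omega
      · subst h4
        have := ih s' Q.a2 m (g' + 1) (r + 1) k t h (by decide) (by omega) (by omega) hacc (by
          intro w hw
          have h5 := hc' w hw
          omega) (by
          have e : m + (g' + 1) + (r + 1) + k - 1 = m + g + r + k - 1 := by omega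
          rw [e]; exact ht.2)
        omega
      · exact absurd h1 hq
      · exact absurd (by omega) ht.1

end PopSt
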