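import Pool.Agent.R666.PS.Stms

/-! PS-8: no blocks starting from a state `A`. -/

namespace PopSt

open St

namespace P8

/-- second step from `A` or `T`/`B`/`Z` reading only values of the upper slot -/
theorem upper {q : Q} {m g r h x : ℕ} {v v2 : ℕ} {c' s' : List ℕ}
    (hacc : Acc (A q m g r h) (v :: v2 :: c' ++ s'))
    (hv : m + g + r ≤ v) (hv2 : m + g + r ≤ v2) (hr : 1 ≤ r) : False := by
  simp only [List.cons_append] at hacc
  cases hacc with
  | cons h1 h2 =>
    cases h2 with
    | cons h3 h4 =>
      cases h1 with
      | Al => omega
      | Ar => omega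
      | Am => omega
      | An => cases h3 <;> first | omega | simp_all
      | At => cases h3 <;> first | omega | simp_all
      | Af => cases h3 <;> omega

end P8

open P8 in
theorem blockA (hU : UnreadStm) (hE2 : Ex2Stm) (hE3 : Ex3Stm) (hE5 : Ex5Stm) : BlockAStm := by
  intro q m g r h n c s' x hdim hacc hlen hc
  obtain ⟨hg, hr, hh, hn⟩ := hdim
  rcases c with _ | ⟨v, _ | ⟨v2, c'⟩⟩
  · simp at hlen
  · simp at hlen
  obtain ⟨hnd, hmem⟩ := hU _ _ hacc
  have hun : ∀ w ∈ (v :: v2 :: c'), (m ≤ w ∧ w < m + g) ∨ (m + g + r ≤ w ∧ w < m + g + r + h) := by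
    intro w hw
    exact (hmem w).1 (List.mem_append_left _ hw)
  have hvc : v ∈ (v :: v2 :: c') := by simp
  have hv2c : v2 ∈ (v :: v2 :: c') := by simp
  have hndc : (v :: v2 :: c').Nodup := (List.nodup_append.1 hnd).1
  have hvv2 : v ≠ v2 := by
    intro e
    rw [List.nodup_cons] at hndc
    exact hndc.1 (by simp [e])
  have hv2c' : v2 ∉ c' := by
    rw [List.nodup_cons, List.nodup_cons] at hndc
    exact hndc.2.1
  have hvc' : v ∉ c' := by
    intro h0
    rw [List.nodup_cons] at hndc
    exact hndc.1 (List.mem_cons_of_mem _ h0)
  set L := (v :: v2 :: c').length with hL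
  have hL' : L = c'.length + 2 := by rw [hL]; simp
  -- which slot
  have hxm : ¬ (x ≤ m + g ∧ m + g < x + L) := by
    intro h0
    have := hun _ ((hc (m + g)).2 h0)
    omega
  by_cases hslot : m + g ≤ x
  · have h1 : ∀ w ∈ (v :: v2 :: c'), m + g + r ≤ w := by
      intro w hw
      have := hun w hw
      have := (hc w).1 hw
      omega
    exact upper (x := x) hacc (h1 v hvc) (h1 v2 hv2c) hr
  have hs1 : ∀ w ∈ (v :: v2 :: c'), m ≤ w ∧ w < m + g := by
    intro w hw
    have := hun w hw
    have := (hc w).1 hw
    omega
  have hlt : L < g := hE3.1 _ s' q m g r h hg hacc hs1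
  have hxm' : m ≤ x := (hs1 x ((hc x).2 (by omega))).1
  have hv := (hc v).1 hvc
  have hv2 := (hc v2).1 hv2c
  have hmemc : ∀ w, x ≤ w → w < x + L → w ≠ v → w ≠ v2 → w ∈ c' := by
    intro w hw1 hw2 hw3 hw4
    have := (hc w).2 ⟨hw1, hw2⟩
    simp only [List.mem_cons] at this
    rcases this with h0 | h0 | h0
    · exact absurd h0 hw3
    · exact absurd h0 hw4
    · exact h0
  have hc' : ∀ w ∈ c', m ≤ w ∧ w < m + g ∧ w ≠ v ∧ w ≠ v2 ∧ x ≤ w ∧ w < x + L := by
    intro w hw
    have hw' : w ∈ (v :: v2 :: c') := List.mem_cons_of_mem _ (List.mem_cons_of_mem _ hw)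
    have h1 := hs1 w hw'
    have h2 := (hc w).1 hw'
    refine ⟨h1.1, h1.2, ?_, ?_, h2.1, h2.2⟩
    · rintro rfl; exact hvc' hw
    · rintro rfl; exact hv2c' hw
  have hsv := hs1 v hvc
  have hsv2 := hs1 v2 hv2c
  simp only [List.cons_append] at hacc
  cases hacc with
  | cons h1 h2 =>
    cases h2 with
    | cons h3 h4 =>
      cases h1 with
      | An => omega
      | At => omega
      | Af => omega
      | Al _ _ g' _ _ hq =>
        cases h3 with
        | Al _ _ _ _ _ hq' => exact hq' rfl
        | Ar => omega
        | Am _ _ u k _ _ =>
          have h5 := hE5 c' s' Q.a1 (m + 1) (u + 1) 1 (k + 1) r h (by simp) (by omega) (by omega)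
            h4 (by
              intro w hw
              have := hc' w hw
              omega) (by
              intro h0
              have := hc' _ h0
              omega)
          omega
        | An => omega
        | At => omega
        | Af => omega
      | Ar _ _ g' _ _ hq hq' =>
        cases h3 with
        | Al => omega
        | Ar _ _ _ _ _ h6 h7 => exact h7 rfl
        | Am _ _ u k _ _ =>
          have h5 := hE2 c' s' Q.a1 m (u + 1) 1 (k + 1) (r + 1) h h4 (by
            intro h0
            have := hc' _ h0
            omega)
          apply h5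
          apply hmemc <;> omega
        | An => omega
        | At => omega
        | Af => omega
      | Am _ _ u k _ _ =>
        have h34 := Acc.cons h3 h4
        cases h3 with
        | Tl _ _ g' _ _ _ _ hq =>
          have h5 := hE5 (m :: c') s' Q.a1 m (g' + 2) 1 (k + 1) r h (by simp) (by omega)
            (by omega) h34 (by
              intro w hw
              rw [List.mem_cons] at hw
              rcases hw with rfl | hw
              · omega
              · have := hc' w hw
                omega) (by
              intro h0
              rw [List.mem_cons] at h0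
              rcases h0 with h0 | h0
              · omega
              · have := hc' _ h0
                omega)
          simp only [List.length_cons] at h5
          omega
        | Tr _ _ _ _ _ _ _ h6 h7 => exact h6 rfl
        | Tc _ _ _ _ k' _ _ h6 =>
          have h5 := hE2 ((m + (u + 1) + 1 + k' + 1) :: c') s' Q.a1 m (u + 1) 1 (k' + 2) r h h34 (by
            intro h0
            rw [List.mem_cons] at h0
            rcases h0 with h0 | h0
            · omega
            · have := hc' _ h0
              omega)
          apply h5
          rw [List.mem_cons]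
          by_cases h0 : m + (u + 1) + 1 = m + (u + 1) + 1 + k' + 1
          · exact Or.inl h0
          · right
            apply hmemc <;> omega

end PopSt
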