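import Pool.Agent.R666.PS.Piece7

namespace PopSt

open St P7

namespace P9

theorem blockT (q : Q) (m g r k t h : ℕ) : NoBlock (T q m g r k t h) := by
  intro n c s' x hd hacc hc hx
  simp only [Dim] at hd
  have hun := unreadStm _ _ hacc
  have hgap : ∀ a b, a ∈ c → b ∈ c → a < m + g → m + g < b → False := by
    intro a b ha hb h1 h2
    have e1 := (hx a).1 ha
    have e2 := (hx b).1 hb
    have e3 : m + g ∈ c := (hx _).2 ⟨by omega, by omega⟩
    have e4 := (hun.2 (m + g)).1 (List.mem_append_left _ e3)
    simp only [Unread] at e4
    omega
  rcases c with _ | ⟨v, _ | ⟨v2, c⟩⟩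
  · simp at hc
  · simp at hc
  have hv : v ∈ v :: v2 :: c := by simp
  have hv2 : v2 ∈ v :: v2 :: c := by simp
  have ev := (hx v).1 hv
  have ev2 := (hx v2).1 hv2
  have hne : ∀ w ∈ v2 :: c, w ≠ v := by
    refine head_notMem (s := T q m g r k t h) (s' := s') ?_
    simpa using hacc
  have hcm : ∀ w ∈ v2 :: c, w ∈ v :: v2 :: c := fun w hw => List.mem_cons_of_mem _ hw
  simp only [List.length_cons] at ev ev2 hx
  cases hacc with
  | cons hst hacc =>
    have hacc' := hacc
    change Acc _ ((v2 :: c) ++ s') at hacc'
    cases hacc with
    | cons hst2 hacc2 =>
      rcases step_T hst with ⟨g', h1, h2, h3, h4⟩ | ⟨g', h1, h1', h2, h3, h4⟩ |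
        ⟨h1, h2, h3, h4⟩ | ⟨k', h1, h2, h3, h4⟩
      · subst h4
        rcases step_T hst2 with ⟨g'', k1, k2, k3, k4⟩ | ⟨g'', k1, k1', k2, k3, k4⟩ |
          ⟨k1, k2, k3, k4⟩ | ⟨k'', k1, k2, k3, k4⟩
        · exact k1 rfl
        · have := ex1Stm.1 (v2 :: c) s' Q.o (m + 1) (g' + 1) r k t h (by decide) (by omega)
            hacc' (by
              intro w hw
              have e1 := hne w hw
              have e2 := (hx w).1 (hcm w hw)
              have e3 : w ≤ m + g := by
                by_contra hcon
                exact hgap v w hv (hcm w hw) (by omega) (by omega)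
              have e4 : w ≠ m + g := by
                rintro rfl
                have e4 := (hun.2 (m + g)).1 (List.mem_append_left _ (hcm _ hw))
                simp only [Unread] at e4
                omega
              have e5 : m ≤ w := by
                have e4 := (hun.2 w).1 (List.mem_append_left _ (hcm _ hw))
                simp only [Unread] at e4
                omega
              omega)
          simp only [List.length_cons] at this
          omega
        · exact absurd k1 (by decide)
        · exact hgap v v2 hv hv2 (by omega) (by omega)
      · subst h4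
        rcases step_T hst2 with ⟨g'', k1, k2, k3, k4⟩ | ⟨g'', k1, k1', k2, k3, k4⟩ |
          ⟨k1, k2, k3, k4⟩ | ⟨k'', k1, k2, k3, k4⟩
        · have := ex1Stm.1 (v2 :: c) s' Q.a2 m (g' + 1) (r + 1) k t h (by decide) (by omega)
            hacc' (by
              intro w hw
              have e1 := hne w hw
              have e2 := (hx w).1 (hcm w hw)
              have e3 : w ≤ m + g := by
                by_contra hcon
                exact hgap v w hv (hcm w hw) (by omega) (by omega)
              have e4 : w ≠ m + g := by
                rintro rfl
                have e4 := (hun.2 (m + g)).1 (List.mem_append_left _ (hcm _ hw))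
                simp only [Unread] at e4
                omega
              have e5 : m ≤ w := by
                have e4 := (hun.2 w).1 (List.mem_append_left _ (hcm _ hw))
                simp only [Unread] at e4
                omega
              omega)
          simp only [List.length_cons] at this
          omega
        · exact k1' rfl
        · exact absurd k1 (by decide)
        · exact hgap v v2 hv hv2 (by omega) (by omega)
      · subst h4
        have e1 := ((unreadStm _ _ hacc').2 v2).1 (by simp)
        simp only [Unread] at e1
        exact hgap v v2 hv hv2 (by omega) (by omega)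
      · subst h4
        rcases step_T hst2 with ⟨g'', k1, k2, k3, k4⟩ | ⟨g'', k1, k1', k2, k3, k4⟩ |
          ⟨k1, k2, k3, k4⟩ | ⟨k'', k1, k2, k3, k4⟩
        · exact hgap v2 v hv2 hv (by omega) (by omega)
        · exact hgap v2 v hv2 hv (by omega) (by omega)
        · exact hgap v2 v hv2 hv (by omega) (by omega)
        · exact k1 rfl

theorem blockB (q : Q) (m g r k t : ℕ) : NoBlock (B q m g r k t) := by
  intro n c s' x hd hacc hc hx
  simp only [Dim] at hd
  have hun := unreadStm _ _ hacc
  have hgap : ∀ a b, a ∈ c → b ∈ c → a < m + g → m + g < b → False := by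
    intro a b ha hb h1 h2
    have e1 := (hx a).1 ha
    have e2 := (hx b).1 hb
    have e3 : m + g ∈ c := (hx _).2 ⟨by omega, by omega⟩
    have e4 := (hun.2 (m + g)).1 (List.mem_append_left _ e3)
    simp only [Unread] at e4
    omega
  rcases c with _ | ⟨v, _ | ⟨v2, c⟩⟩
  · simp at hc
  · simp at hc
  have hv : v ∈ v :: v2 :: c := by simp
  have hv2 : v2 ∈ v :: v2 :: c := by simp
  have ev := (hx v).1 hv
  have ev2 := (hx v2).1 hv2
  have hne : ∀ w ∈ v2 :: c, w ≠ v := by
    refine head_notMem (s := B q m g r k t) (s' := s') ?_
    simpa using hacc
  have hcm : ∀ w ∈ v2 :: c, w ∈ v :: v2 :: c := fun w hw => List.mem_cons_of_mem _ hw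
  simp only [List.length_cons] at ev ev2 hx
  cases hacc with
  | cons hst hacc =>
    have hacc' := hacc
    change Acc _ ((v2 :: c) ++ s') at hacc'
    cases hacc with
    | cons hst2 hacc2 =>
      rcases step_B hst with ⟨g', h1, h2, h3, h4⟩ | ⟨g', h1, h1', h2, h3, h4⟩ |
        ⟨k', h1, h2, h3, h4⟩ | ⟨h1, h2, h2', h3, h4⟩ | ⟨h1, h1', h2, h2', h3, h4⟩
      · subst h4
        rcases step_B hst2 with ⟨g'', k1, k2, k3, k4⟩ | ⟨g'', k1, k1', k2, k3, k4⟩ |
          ⟨k'', k1, k2, k3, k4⟩ | ⟨k1, k2, k2', k3, k4⟩ | ⟨k1, k1', k2, k2', k3, k4⟩
        · exact k1 rfl
        · have := ex1Stm.2 (v2 :: c) s' Q.o (m + 1) (g' + 1) r k t (by decide) (by omega)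
            hacc' (by
              intro w hw
              have e1 := hne w hw
              have e2 := (hx w).1 (hcm w hw)
              have e3 : w ≤ m + g := by
                by_contra hcon
                exact hgap v w hv (hcm w hw) (by omega) (by omega)
              have e4 : w ≠ m + g := by
                rintro rfl
                have e4 := (hun.2 (m + g)).1 (List.mem_append_left _ (hcm _ hw))
                simp only [Unread] at e4
                omega
              have e5 : m ≤ w := by
                have e4 := (hun.2 w).1 (List.mem_append_left _ (hcm _ hw))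
                simp only [Unread] at e4
                omega
              omega)
          simp only [List.length_cons] at this
          omega
        · exact hgap v v2 hv hv2 (by omega) (by omega)
        · exact absurd k1 (by decide)
        · exact hgap v v2 hv hv2 (by omega) (by omega)
      · subst h4
        rcases step_B hst2 with ⟨g'', k1, k2, k3, k4⟩ | ⟨g'', k1, k1', k2, k3, k4⟩ |
          ⟨k'', k1, k2, k3, k4⟩ | ⟨k1, k2, k2', k3, k4⟩ | ⟨k1, k1', k2, k2', k3, k4⟩
        · have := ex1Stm.2 (v2 :: c) s' Q.a2 m (g' + 1) (r + 1) k t (by decide) (by omega)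
            hacc' (by
              intro w hw
              have e1 := hne w hw
              have e2 := (hx w).1 (hcm w hw)
              have e3 : w ≤ m + g := by
                by_contra hcon
                exact hgap v w hv (hcm w hw) (by omega) (by omega)
              have e4 : w ≠ m + g := by
                rintro rfl
                have e4 := (hun.2 (m + g)).1 (List.mem_append_left _ (hcm _ hw))
                simp only [Unread] at e4
                omega
              have e5 : m ≤ w := by
                have e4 := (hun.2 w).1 (List.mem_append_left _ (hcm _ hw))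
                simp only [Unread] at e4
                omega
              omega)
          simp only [List.length_cons] at this
          omega
        · exact k1' rfl
        · exact hgap v v2 hv hv2 (by omega) (by omega)
        · exact absurd k1 (by decide)
        · exact hgap v v2 hv hv2 (by omega) (by omega)
      · subst h4
        rcases step_B hst2 with ⟨g'', k1, k2, k3, k4⟩ | ⟨g'', k1, k1', k2, k3, k4⟩ |
          ⟨k'', k1, k2, k3, k4⟩ | ⟨k1, k2, k2', k3, k4⟩ | ⟨k1, k1', k2, k2', k3, k4⟩
        · exact hgap v2 v hv2 hv (by omega) (by omega)
        · exact hgap v2 v hv2 hv (by omega) (by omega)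
        · exact k1 rfl
        · exact hgap v2 v hv2 hv (by omega) (by omega)
        · exact absurd k1 (by decide)
      · subst h4
        have e1 := ((unreadStm _ _ hacc').2 v2).1 (by simp)
        simp only [Unread] at e1
        exact hgap v v2 hv hv2 (by omega) (by omega)
      · subst h4
        have e1 := ((unreadStm _ _ hacc').2 v2).1 (by simp)
        simp only [Unread] at e1
        exact hgap v2 v hv2 hv (by omega) (by omega)

end P9

theorem blockTBStm : BlockTBStm :=
  ⟨fun q m g r k t h => P9.blockT q m g r k t h, fun q m g r k t => P9.blockB q m g r k t⟩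

end PopSt
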