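import Pool.Agent.R666.PS.Asm
import Pool.Agent.R666.PS.Piece1
import Pool.Agent.R666.PS.Piece2
import Pool.Agent.R666.PS.Piece3
import Pool.Agent.R666.PS.Piece4
import Pool.Agent.R666.PS.Piece5
import Pool.Agent.R666.PS.Piece6
import Pool.Agent.R666.PS.Piece7
import Pool.Agent.R666.PS.Piece8
import Pool.Agent.R666.PS.Piece9
import Pool.Agent.R666.PS.Piece10
import Pool.Agent.R666.PS.Piece11
import Pool.Agent.R666.PS.Piece12

namespace PopSt

theorem answer (n : ℕ) (hn : 3 ≤ n) :
    Nat.card {σ : Equiv.Perm (Fin n) // Simple σ ∧ Sortable σ} =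
      if Odd n then Nat.fib (2 * n - 5) - 1 else Nat.fib (2 * n - 5) := by
  have h1 := noThree
  have h3 := cprime h1
  exact final (stepA h1 h3) (stepTStm_of h1 h3) (stepB h1) unreadStm
    (blockA unreadStm ex2Stm ex3Stm ex5Stm) blockTBStm acc_sortable finiteStm recStm
    sum_stm transfer_stm n hn

end PopSt
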