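import Pool.Agent.R666.PS.Piece0

namespace PopSt

open St

theorem perm_mem {n : ℕ} {p rest : List ℕ} (h : (p ++ rest).Perm (List.range n)) (v : ℕ) :
    v ∈ rest ↔ v < n ∧ v ∉ p := by
  have hnd : (p ++ rest).Nodup := h.nodup_iff.2 List.nodup_range
  have hm : v ∈ p ++ rest ↔ v < n := by rw [h.mem_iff, List.mem_range]
  rw [List.mem_append] at hm
  constructor
  · intro hv
    exact ⟨hm.1 (Or.inr hv), fun hp => (List.nodup_append.1 hnd).2.2 v hp v hv rfl⟩
  · rintro ⟨h1, h2⟩
    exact (hm.2 h1).resolve_left h2

theorem simple_sortable_acc (HA : StepAStm) (HT : StepTStm) (HB : StepBStm) :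
    ∀ (rest : List ℕ) (n : ℕ) (p : List ℕ) (s : St), (p ++ rest).Perm (List.range n) →
      SortableL n (p ++ rest) → SimpleL (p ++ rest) → Inv n p s → Acc s rest := by
  intro rest
  induction rest with
  | nil =>
    intro n p s hperm hsort hsim hinv
    cases s with
    | A q m g r h =>
      obtain ⟨v, r', s', h1, _⟩ := HA q m g r h n p [] hperm hsort hsim hinv
      simp at h1
    | T q m g r k t h =>
      obtain ⟨v, r', s', h1, _⟩ := HT q m g r k t h n p [] hperm hsort hsim hinv
      simp at h1
    | B q m g r k t =>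
      obtain ⟨v, r', s', h1, _⟩ := HB q m g r k t n p [] hperm hsort hsim hinv
      simp at h1
    | Z v =>
      exfalso
      have h2 := (perm_mem hperm v).2
      obtain ⟨_, hd, _, hu⟩ := hinv
      have hvn : v < n := by simp only [Dim] at hd; omega
      have : v ∉ p := by
        intro hv
        exact ((hu v).1 hv).2 rfl
      exact absurd (h2 ⟨hvn, this⟩) (by simp)
    | D => exact Acc.nil
  | cons v rest' ih =>
    intro n p s hperm hsort hsim hinv
    have key : ∀ (v' : ℕ) (r' : List ℕ) (s' : St), v :: rest' = v' :: r' → Step s v' s' →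
        Acc s (v :: rest') := by
      intro v' r' s' he hst
      injection he with he1 he2
      subst he1
      subst he2
      refine Acc.cons hst (ih n (p ++ [v]) s' ?_ ?_ ?_ (inv_step n p s s' v hinv hst))
      · simpa using hperm
      · simpa using hsort
      · simpa using hsim
    cases s with
    | A q m g r h =>
      obtain ⟨v', r', s', h1, h2⟩ := HA q m g r h n p _ hperm hsort hsim hinv
      exact key v' r' s' h1 h2
    | T q m g r k t h =>
      obtain ⟨v', r', s', h1, h2⟩ := HT q m g r k t h n p _ hperm hsort hsim hinv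
      exact key v' r' s' h1 h2
    | B q m g r k t =>
      obtain ⟨v', r', s', h1, h2⟩ := HB q m g r k t n p _ hperm hsort hsim hinv
      exact key v' r' s' h1 h2
    | Z w =>
      have hu := hinv.2.2.2
      have h3 : ∀ u, u ∈ v :: rest' → u = w := by
        intro u hu'
        have := (perm_mem hperm u).1 hu'
        by_contra hne
        exact this.2 ((hu u).2 ⟨this.1, hne⟩)
      have hv : v = w := h3 v (by simp)
      have hnd : (v :: rest').Nodup :=
        (List.nodup_append.1 (hperm.nodup_iff.2 List.nodup_range)).2.1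
      have hr : rest' = [] := by
        rcases rest' with _ | ⟨a, b⟩
        · rfl
        · exfalso
          have ha : a = w := h3 a (by simp)
          rw [hv, ha] at hnd
          simp at hnd
      subst hv
      subst hr
      exact Acc.cons (Step.Zz v) Acc.nil
    | D =>
      exfalso
      have hu := hinv.2.2.2
      have := (perm_mem hperm v).1 (by simp)
      exact this.2 ((hu v).2 ⟨this.1, by simp [Unread]⟩)

theorem start_acc (HA : StepAStm) (HT : StepTStm) (HB : StepBStm) {n : ℕ} (hn : 3 ≤ n)
    {l : List ℕ} (hperm : l.Perm (List.range n)) (hsim : SimpleL l) (hsort : SortableL n l) :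
    AccStart n l := by
  have hlen : l.length = n := by rw [hperm.length_eq, List.length_range]
  rcases l with _ | ⟨v, rest⟩
  · simp at hlen; omega
  have hmem : ∀ u, u ∈ rest ↔ u < n ∧ u ∉ [v] := perm_mem (p := [v]) (rest := rest) hperm
  have hvn : v < n := by
    have : v ∈ List.range n := hperm.mem_iff.1 (by simp)
    simpa using this
  have hlen' : rest.length + 1 = n := by simpa using hlen
  have hv0 : v ≠ 0 := by
    rintro rfl
    have := hsim [0] rest [] 1 (by simp) (by omega) (by
      intro u
      rw [hmem u]
      simp only [List.mem_singleton]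
      omega)
    simp at this
  have hv1 : v ≠ n - 1 := by
    intro hv
    have := hsim [v] rest [] 0 (by simp) (by omega) (by
      intro u
      rw [hmem u]
      simp only [List.mem_singleton]
      omega)
    simp at this
  obtain ⟨g, rfl⟩ : ∃ g, v = g + 1 := ⟨v - 1, by omega⟩
  obtain ⟨h, hh⟩ : ∃ h, n = g + h + 3 := ⟨n - g - 3, by omega⟩
  refine ⟨g, h, rest, hh, rfl, ?_⟩
  refine simple_sortable_acc HA HT HB rest n [g + 1] _ hperm hsort hsim ?_
  refine ⟨by simp, ?_, ?_, ?_⟩
  · simp only [Dim]; omega
  · simp [Mem]
  · intro w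
    simp only [Unread, List.mem_singleton]
    omega

theorem acc_split {n : ℕ} : ∀ (a p b : List ℕ) (s : St), Inv n p s → Acc s (a ++ b) →
    ∃ s1, Inv n (p ++ a) s1 ∧ Acc s1 b := by
  intro a
  induction a with
  | nil => intro p b s hi ha; exact ⟨s, by simpa using hi, ha⟩
  | cons v a ih =>
    intro p b s hi ha
    cases ha with
    | cons hst hacc =>
      obtain ⟨s1, h1, h2⟩ := ih (p ++ [v]) b _ (inv_step _ _ _ _ _ hi hst) hacc
      exact ⟨s1, by simpa using h1, h2⟩

theorem start_inv (n g h : ℕ) (hh : n = g + h + 3) :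
    Inv n [g + 1] (A Q.a1 0 (g + 1) 1 (h + 1)) := by
  refine ⟨by simp, ?_, ?_, ?_⟩
  · simp only [Dim]; omega
  · simp [Mem]
  · intro w
    simp only [Unread, List.mem_singleton]
    omega

theorem accStart_perm (HU : UnreadStm) {n : ℕ} {l : List ℕ} (h : AccStart n l) :
    l.Perm (List.range n) := by
  obtain ⟨g, h', l', hn, rfl, hacc⟩ := h
  obtain ⟨hnd, hm⟩ := HU _ _ hacc
  rw [List.perm_ext_iff_of_nodup]
  · intro v
    simp only [List.mem_cons, hm v, Unread, List.mem_range]
    omega
  · rw [List.nodup_cons]
    refine ⟨?_, hnd⟩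
    rw [hm]
    simp only [Unread]
    omega
  · exact List.nodup_range

theorem accStart_simple (HU : UnreadStm) (BA : BlockAStm) (BT : BlockTBStm) {n : ℕ} {l : List ℕ}
    (h : AccStart n l) : SimpleL l := by
  have hperm := accStart_perm HU h
  obtain ⟨g, h', l', hn, rfl, hacc⟩ := h
  have hinv := start_inv n g h' hn
  intro p c s x hl hc hx
  have hndl : ((g + 1) :: l').Nodup := hperm.nodup_iff.2 List.nodup_range
  rcases p with _ | ⟨a, p⟩
  · refine ⟨rfl, ?_⟩
    rcases c with _ | ⟨a, c⟩
    · simp at hc
    simp only [List.nil_append, List.cons_append, List.cons.injEq] at hl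
    obtain ⟨rfl, rfl⟩ := hl
    obtain ⟨s1, h1, h2⟩ := acc_split c [g + 1] s _ hinv hacc
    obtain ⟨_, hd, hme, hu⟩ := h1
    have hu' : ∀ v, (x ≤ v ∧ v < x + (c.length + 1)) ↔ (v < n ∧ ¬ Unread s1 v) := by
      intro v
      have := hx v
      simp only [List.length_cons] at this
      rw [← this, ← hu v]
      simp
    simp only [List.length_cons] at hc
    cases s1 with
    | A q m g' r h'' =>
      exfalso
      simp only [Dim, Mem, Unread] at *
      by_cases hm0 : m = 0
      · have hr := (hme.2.2.2 hm0).2
        have e1 := hu' x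
        have e2 := hu' (x + 1)
        omega
      · have e1 := hu' 0
        have e2 := hu' (m + g')
        have e3 := hu' m
        omega
    | T q m g' r k t h'' =>
      exfalso
      simp only [Dim, Unread] at *
      have e1 := hu' (m + g' + r + k)
      have e2 := hu' (m + g')
      have e3 := hu' (m + g' + r)
      omega
    | B q m g' r k t =>
      exfalso
      simp only [Dim, Unread] at *
      have e1 := hu' (m + g' + r + k)
      have e2 := hu' (m + g')
      have e3 := hu' (m + g' + r)
      omega
    | Z v =>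
      exfalso
      simp only [Dim, Unread] at *
      have e1 := hu' 0
      have e2 := hu' (n - 1)
      have e3 := hu' v
      omega
    | D =>
      cases h2 with
      | nil => rfl
      | cons hst' _ => cases hst'
  · exfalso
    simp only [List.cons_append, List.cons.injEq] at hl
    obtain ⟨rfl, rfl⟩ := hl
    rw [List.append_assoc] at hacc
    obtain ⟨s1, h1, h2⟩ := acc_split p [g + 1] (c ++ s) _ hinv hacc
    cases s1 with
    | A q m g' r h'' => exact BA q m g' r h'' n c s x h1.2.1 h2 hc hx
    | T q m g' r k t h'' => exact BT.1 q m g' r k t h'' n c s x h1.2.1 h2 hc hx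
    | B q m g' r k t => exact BT.2 q m g' r k t n c s x h1.2.1 h2 hc hx
    | Z v =>
      rcases c with _ | ⟨a, _ | ⟨b, c⟩⟩
      · simp at hc
      · simp at hc
      · cases h2 with
        | cons hst hacc =>
          cases hst
          cases hacc with
          | cons hst' _ => cases hst'
    | D =>
      rcases c with _ | ⟨a, c⟩
      · simp at hc
      · cases h2 with
        | cons hst' _ => cases hst'

theorem accept_eq (HA : StepAStm) (HT : StepTStm) (HB : StepBStm) (HU : UnreadStm)
    (BA : BlockAStm) (BT : BlockTBStm) (HS : AccSortableStm) {n : ℕ} (hn : 3 ≤ n) :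
    {l : List ℕ | l.Perm (List.range n) ∧ SimpleL l ∧ SortableL n l} = {l | AccStart n l} := by
  ext l
  constructor
  · rintro ⟨h1, h2, h3⟩
    exact start_acc HA HT HB hn h1 h2 h3
  · intro h
    exact ⟨accStart_perm HU h, accStart_simple HU BA BT h, HS n l h⟩

theorem start_count (HF : FiniteStm) : StartCountStm := by
  intro n hn
  classical
  have hset : {l | AccStart n l} = ((Finset.HasAntidiagonal.antidiagonal (n - 3)).biUnion
      (fun p => ((HF (A Q.a1 0 (p.1 + 1) 1 (p.2 + 1))).toFinset.image
        (fun l => (p.1 + 1) :: l))) : Finset (List ℕ)) := by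
    ext l
    simp only [Set.mem_ofPred_eq, Finset.coe_biUnion, Finset.mem_coe, Set.mem_iUnion,
      Finset.HasAntidiagonal.mem_antidiagonal, Finset.mem_image, Set.Finite.mem_toFinset, exists_prop,
      AccStart]
    constructor
    · rintro ⟨g, h, l', hn', rfl, hacc⟩
      exact ⟨(g, h), by simp; omega, l', hacc, rfl⟩
    · rintro ⟨⟨g, h⟩, hgh, l', hacc, rfl⟩
      simp only at hgh
      exact ⟨g, h, l', by omega, rfl, hacc⟩
  rw [hset, Set.ncard_coe_finset, Finset.card_biUnion]
  · apply Finset.sum_congr rfl
    intro p _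
    rw [Finset.card_image_of_injective _ (fun a b h => by simpa using h), cnt,
      Set.ncard_eq_toFinset_card _ (HF _)]
  · intro p hp q hq hpq
    rw [Finset.mem_coe, Finset.HasAntidiagonal.mem_antidiagonal] at hp hq
    rw [Function.onFun, Finset.disjoint_left]
    intro l hl hl'
    simp only [Finset.mem_image, Set.Finite.mem_toFinset] at hl hl'
    obtain ⟨a, _, rfl⟩ := hl
    obtain ⟨b, _, hb⟩ := hl'
    simp only [List.cons.injEq] at hb
    apply hpq
    ext <;> omega

theorem final (HA : StepAStm) (HT : StepTStm) (HB : StepBStm) (HU : UnreadStm)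
    (BA : BlockAStm) (BT : BlockTBStm) (HS : AccSortableStm) (HF : FiniteStm) (HR : RecStm)
    (HSum : SumStm) (HTr : TransferStm) (n : ℕ) (hn : 3 ≤ n) :
    a n = if Odd n then Nat.fib (2 * n - 5) - 1 else Nat.fib (2 * n - 5) := by
  rw [HTr n, accept_eq HA HT HB HU BA BT HS hn, start_count HF n hn,
    HSum cnt HR.1 HR.2.1 HR.2.2 n hn]

end PopSt
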