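import Mathlib

/-!
# MP_95815e_co: simple permutations sortable by two parallel pop stacks with bypass

Definitions for the statement, and the automaton used in the proof.
-/

namespace PopSt

/-- A configuration of the machine: remaining input, contents of the two pop stacks
(top first), and the output written so far. -/
structure Mach where
  inp : List ℕ
  s1 : List ℕ
  s2 : List ℕ
  out : List ℕ

/-- One operation of the machine. -/
inductive Op : Mach → Mach → Prop
  | bypass (v : ℕ) (inp s1 s2 out : List ℕ) :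
      Op ⟨v :: inp, s1, s2, out⟩ ⟨inp, s1, s2, out ++ [v]⟩
  | push1 (v : ℕ) (inp s1 s2 out : List ℕ) :
      Op ⟨v :: inp, s1, s2, out⟩ ⟨inp, v :: s1, s2, out⟩
  | push2 (v : ℕ) (inp s1 s2 out : List ℕ) :
      Op ⟨v :: inp, s1, s2, out⟩ ⟨inp, s1, v :: s2, out⟩
  | pop1 (inp s1 s2 out : List ℕ) :
      Op ⟨inp, s1, s2, out⟩ ⟨inp, [], s2, out ++ s1⟩
  | pop2 (inp s1 s2 out : List ℕ) :
      Op ⟨inp, s1, s2, out⟩ ⟨inp, s1, [], out ++ s2⟩

/-- The word `l` can be turned by the machine into `0, 1, …, n-1`. -/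
def SortableL (n : ℕ) (l : List ℕ) : Prop :=
  Relation.ReflTransGen Op ⟨l, [], [], []⟩ ⟨[], [], [], List.range n⟩

/-- A permutation (one-line notation, values `0, …, n-1`) is sortable. -/
def Sortable {n : ℕ} (σ : Equiv.Perm (Fin n)) : Prop :=
  SortableL n (List.ofFn (fun i => ((σ i : Fin n) : ℕ)))

/-- A permutation is simple: every set of at least two consecutive positions whose values
form a set of consecutive integers is the set of all positions. -/
def Simple {n : ℕ} (σ : Equiv.Perm (Fin n)) : Prop :=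
  ∀ i j x y : Fin n, i < j → (Finset.Icc i j).image σ = Finset.Icc x y →
    Finset.Icc i j = Finset.univ

/-- The number of simple sortable permutations of size `n`. -/
noncomputable def a (n : ℕ) : ℕ :=
  Nat.card {σ : Equiv.Perm (Fin n) // Simple σ ∧ Sortable σ}

/-! ## List versions -/

/-- Simplicity for a word which is a rearrangement of `0, …, n-1`. -/
def SimpleL (l : List ℕ) : Prop :=
  ∀ (p c s : List ℕ) (x : ℕ), l = p ++ c ++ s → 2 ≤ c.length →
    (∀ v, v ∈ c ↔ x ≤ v ∧ v < x + c.length) → p = [] ∧ s = []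

/-! ## The automaton

`A`: slots `◇ a ◇`, i.e. the values `< m` are output, the `g` values `m, …, m+g-1` are unread,
the `r` values `m+g, …` are waiting in one stack (a run), and the `h` largest values are unread.
`T`: slots `◇ a ◇ c ◇` of sizes `g, k, h`, runs of lengths `r`, `t`.
`B`: slots `◇ a ◇ c` of sizes `g, k`, runs of lengths `r`, `t`.
`Z v`: only `v` is unread.  `D`: everything has been read.

The memory `Q`: `a1` = the last value read is the bottom of the `a`-run, which is a single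
element; `a2` = the last value read is the bottom of the `a`-run, of length at least 2;
`o` = the last value read is `m-1`; `x` = (in `T`, `B`) the last value read is the bottom of the
`c`-run, (in `A`) no information. -/

inductive Q
  | a1 | a2 | o | x
  deriving DecidableEq

inductive St
  | A (q : Q) (m g r h : ℕ)
  | T (q : Q) (m g r k t h : ℕ)
  | B (q : Q) (m g r k t : ℕ)
  | Z (v : ℕ)
  | D

open St

inductive Step : St → ℕ → St → Prop
  | Al (q : Q) (m g r h : ℕ) (hq : q ≠ Q.o) :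
      Step (A q m (g + 2) r h) m (A Q.o (m + 1) (g + 1) r h)
  | Ar (q : Q) (m g r h : ℕ) (hq : q ≠ Q.a1) (hq' : q ≠ Q.a2) :
      Step (A q m (g + 2) r h) (m + g + 1) (A Q.a2 m (g + 1) (r + 1) h)
  | Am (q : Q) (m u k r h : ℕ) :
      Step (A q m (u + k + 3) r h) (m + u + 1) (T Q.a1 m (u + 1) 1 (k + 1) r h)
  | An (q : Q) (m g r u k : ℕ) :
      Step (A q m g r (u + k + 3)) (m + g + r + u + 1) (T Q.x m g r (u + 1) 1 (k + 1))
  | At (q : Q) (m g r h : ℕ) :
      Step (A q m g r (h + 2)) (m + g + r + h + 1) (B Q.x m g r (h + 1) 1)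
  | Af (q : Q) (m r : ℕ) (hq : q ≠ Q.a1) :
      Step (A q m 1 r 1) (m + 1 + r) (Z m)
  | Tl (q : Q) (m g r k t h : ℕ) (hq : q ≠ Q.o) :
      Step (T q m (g + 2) r k t h) m (T Q.o (m + 1) (g + 1) r k t h)
  | Tr (q : Q) (m g r k t h : ℕ) (hq : q ≠ Q.a1) (hq' : q ≠ Q.a2) :
      Step (T q m (g + 2) r k t h) (m + g + 1) (T Q.a2 m (g + 1) (r + 1) k t h)
  | Tf (m r k t h : ℕ) :
      Step (T Q.x m 1 r k t h) m (A Q.x (m + 1 + r) k t h)
  | Tc (q : Q) (m g r k t h : ℕ) (hq : q ≠ Q.x) :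
      Step (T q m g r (k + 2) t h) (m + g + r + k + 1) (T Q.x m g r (k + 1) (t + 1) h)
  | Bl (q : Q) (m g r k t : ℕ) (hq : q ≠ Q.o) :
      Step (B q m (g + 2) r k t) m (B Q.o (m + 1) (g + 1) r k t)
  | Br (q : Q) (m g r k t : ℕ) (hq : q ≠ Q.a1) (hq' : q ≠ Q.a2) :
      Step (B q m (g + 2) r k t) (m + g + 1) (B Q.a2 m (g + 1) (r + 1) k t)
  | Bc (q : Q) (m g r k t : ℕ) (hq : q ≠ Q.x) :
      Step (B q m g r (k + 2) t) (m + g + r + k + 1) (B Q.x m g r (k + 1) (t + 1))
  | Bf (m r t : ℕ) :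
      Step (B Q.x m 1 r 1 t) m (Z (m + 1 + r))
  | Bg (q : Q) (m r t : ℕ) (hq : q = Q.o ∨ q = Q.a2) (hm : 0 < m) :
      Step (B q m 1 r 1 t) (m + 1 + r) (Z m)
  | Zz (v : ℕ) : Step (Z v) v D

/-- `Acc s l`: the automaton reads `l` from `s` and ends in `D`. -/
inductive Acc : St → List ℕ → Prop
  | nil : Acc D []
  | cons {s s' : St} {v : ℕ} {l : List ℕ} (h : Step s v s') (h' : Acc s' l) : Acc s (v :: l)

/-- The accepted words of length `n`. -/
def AccStart (n : ℕ) (l : List ℕ) : Prop :=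
  ∃ (g h : ℕ) (l' : List ℕ), n = g + h + 3 ∧ l = (g + 1) :: l' ∧
    Acc (A Q.a1 0 (g + 1) 1 (h + 1)) l'

/-- The set of unread values of a state. -/
def Unread : St → ℕ → Prop
  | A _ m g r h, v => (m ≤ v ∧ v < m + g) ∨ (m + g + r ≤ v ∧ v < m + g + r + h)
  | T _ m g r k t h, v => (m ≤ v ∧ v < m + g) ∨ (m + g + r ≤ v ∧ v < m + g + r + k) ∨
      (m + g + r + k + t ≤ v ∧ v < m + g + r + k + t + h)
  | B _ m g r k _, v => (m ≤ v ∧ v < m + g) ∨ (m + g + r ≤ v ∧ v < m + g + r + k)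
  | Z w, v => v = w
  | D, _ => False

/-- Size conditions of a state (total number `n` of values). -/
def Dim (n : ℕ) : St → Prop
  | A _ m g r h => 1 ≤ g ∧ 1 ≤ r ∧ 1 ≤ h ∧ m + g + r + h = n
  | T _ m g r k t h => 1 ≤ g ∧ 1 ≤ r ∧ 1 ≤ k ∧ 1 ≤ t ∧ 1 ≤ h ∧ m + g + r + k + t + h = n
  | B _ m g r k t => 1 ≤ g ∧ 1 ≤ r ∧ 1 ≤ k ∧ 1 ≤ t ∧ m + g + r + k + t = n
  | Z v => 0 < v ∧ v + 1 < n
  | D => True

/-- What the memory says about the word `p` read so far. -/
def Mem (p : List ℕ) : St → Prop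
  | A q m g r _ => (q = Q.a1 → r = 1 ∧ p.getLast? = some (m + g)) ∧
      (q = Q.a2 → 2 ≤ r ∧ p.getLast? = some (m + g)) ∧
      (q = Q.o → 0 < m ∧ p.getLast? = some (m - 1)) ∧ (m = 0 → q = Q.a1 ∧ r = 1)
  | T q m g r k _ _ => (q = Q.a1 → r = 1 ∧ p.getLast? = some (m + g)) ∧
      (q = Q.a2 → 2 ≤ r ∧ p.getLast? = some (m + g)) ∧
      (q = Q.o → 0 < m ∧ p.getLast? = some (m - 1)) ∧
      (q = Q.x → p.getLast? = some (m + g + r + k))
  | B q m g r k _ => (q = Q.a1 → r = 1 ∧ p.getLast? = some (m + g)) ∧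
      (q = Q.a2 → 2 ≤ r ∧ p.getLast? = some (m + g)) ∧
      (q = Q.o → 0 < m ∧ p.getLast? = some (m - 1)) ∧
      (q = Q.x → p.getLast? = some (m + g + r + k))
  | Z _ => True
  | D => True

/-- The state `s` correctly describes the situation after the word `p` has been read. -/
def Inv (n : ℕ) (p : List ℕ) (s : St) : Prop :=
  p ≠ [] ∧ Dim n s ∧ Mem p s ∧ ∀ v, v ∈ p ↔ v < n ∧ ¬ Unread s v

/-- `w < w'` (both in `p`) are separated: either an unread value lies between them, or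
some `z` with `w ≤ z`, `z + 1 ≤ w'` was read before `z + 1`. -/
def Sep (p : List ℕ) (w w' : ℕ) : Prop :=
  (∃ x, x ∉ p ∧ w < x ∧ x < w') ∨ (∃ z, w ≤ z ∧ z + 1 ≤ w' ∧ [z, z + 1].Sublist p)

/-- Number of words accepted from `s`. -/
noncomputable def cnt (s : St) : ℕ := Set.ncard {l | Acc s l}

/-- Shift of a sequence. -/
def sh (F : ℕ → ℕ) : ℕ → ℕ
  | 0 => 0
  | n + 1 => F n

end PopSt
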