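import Pool.Agent.R666.PS.Stms

namespace PopSt

open St

theorem inv_step : InvStepStm := by
  intro n p s s' v hi hs
  obtain ⟨hp, hd, hm, hu⟩ := hi
  refine ⟨by simp, ?_⟩
  cases hs with
  | Al q m g r h hq =>
    simp only [Dim, Mem, Unread] at *
    refine ⟨by omega, ⟨by simp, by simp, fun _ => ⟨by omega, by simp⟩, by omega⟩, ?_⟩
    intro w
    simp only [List.mem_append, List.mem_singleton, hu w]
    omega
  | Ar q m g r h hq hq' =>
    simp only [Dim, Mem, Unread] at *
    refine ⟨by omega, ⟨by simp, fun _ => ⟨by omega, by simp [Nat.add_assoc]⟩, by simp, ?_⟩, ?_⟩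
    · intro h0
      exact absurd (hm.2.2.2 h0).1 hq
    · intro w
      simp only [List.mem_append, List.mem_singleton, hu w]
      omega
  | Am q m u k r h =>
    simp only [Dim, Mem, Unread] at *
    refine ⟨by omega, ⟨fun _ => ⟨by simp, by simp [Nat.add_assoc]⟩, by simp, by simp, by simp⟩, ?_⟩
    intro w
    simp only [List.mem_append, List.mem_singleton, hu w]
    omega
  | An q m g r u k =>
    simp only [Dim, Mem, Unread] at *
    refine ⟨by omega, ⟨by simp, by simp, by simp, fun _ => by simp [Nat.add_assoc]⟩, ?_⟩
    intro w
    simp only [List.mem_append, List.mem_singleton, hu w]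
    omega
  | At q m g r h =>
    simp only [Dim, Mem, Unread] at *
    refine ⟨by omega, ⟨by simp, by simp, by simp, fun _ => by simp [Nat.add_assoc]⟩, ?_⟩
    intro w
    simp only [List.mem_append, List.mem_singleton, hu w]
    omega
  | Af q m r hq =>
    simp only [Dim, Mem, Unread] at *
    have hm0 : m ≠ 0 := fun h0 => hq (hm.2.2.2 h0).1
    refine ⟨by omega, trivial, ?_⟩
    intro w
    simp only [List.mem_append, List.mem_singleton, hu w]
    omega
  | Tl q m g r k t h hq =>
    simp only [Dim, Mem, Unread] at *
    refine ⟨by omega, ⟨by simp, by simp, fun _ => ⟨by omega, by simp⟩, by simp⟩, ?_⟩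
    intro w
    simp only [List.mem_append, List.mem_singleton, hu w]
    omega
  | Tr q m g r k t h hq hq' =>
    simp only [Dim, Mem, Unread] at *
    refine ⟨by omega, ⟨by simp, fun _ => ⟨by omega, by simp [Nat.add_assoc]⟩, by simp, by simp⟩, ?_⟩
    intro w
    simp only [List.mem_append, List.mem_singleton, hu w]
    omega
  | Tf m r k t h =>
    simp only [Dim, Mem, Unread] at *
    refine ⟨by omega, ⟨by simp, by simp, by simp, by omega⟩, ?_⟩
    intro w
    simp only [List.mem_append, List.mem_singleton, hu w]
    omega
  | Tc q m g r k t h hq =>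
    simp only [Dim, Mem, Unread] at *
    refine ⟨by omega, ⟨by simp, by simp, by simp, fun _ => by simp [Nat.add_assoc]⟩, ?_⟩
    intro w
    simp only [List.mem_append, List.mem_singleton, hu w]
    omega
  | Bl q m g r k t hq =>
    simp only [Dim, Mem, Unread] at *
    refine ⟨by omega, ⟨by simp, by simp, fun _ => ⟨by omega, by simp⟩, by simp⟩, ?_⟩
    intro w
    simp only [List.mem_append, List.mem_singleton, hu w]
    omega
  | Br q m g r k t hq hq' =>
    simp only [Dim, Mem, Unread] at *
    refine ⟨by omega, ⟨by simp, fun _ => ⟨by omega, by simp [Nat.add_assoc]⟩, by simp, by simp⟩, ?_⟩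
    intro w
    simp only [List.mem_append, List.mem_singleton, hu w]
    omega
  | Bc q m g r k t hq =>
    simp only [Dim, Mem, Unread] at *
    refine ⟨by omega, ⟨by simp, by simp, by simp, fun _ => by simp [Nat.add_assoc]⟩, ?_⟩
    intro w
    simp only [List.mem_append, List.mem_singleton, hu w]
    omega
  | Bf m r t =>
    simp only [Dim, Mem, Unread] at *
    refine ⟨by omega, trivial, ?_⟩
    intro w
    simp only [List.mem_append, List.mem_singleton, hu w]
    omega
  | Bg q m r t hq hm' =>
    simp only [Dim, Mem, Unread] at *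
    refine ⟨by omega, trivial, ?_⟩
    intro w
    simp only [List.mem_append, List.mem_singleton, hu w]
    omega
  | Zz =>
    simp only [Dim, Mem, Unread] at *
    refine ⟨trivial, trivial, ?_⟩
    intro w
    simp only [List.mem_append, List.mem_singleton, hu w, not_false_eq_true, and_true]
    omega

end PopSt
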