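import Pool.Agent.R666.PS.Defs

/-! Statements of the pieces (as `Prop`s). -/

namespace PopSt

open St

/-- PS-1 -/
def NoThreeStm : Prop :=
  ∀ (n : ℕ) (p rest : List ℕ), (p ++ rest).Perm (List.range n) → SortableL n (p ++ rest) →
    ∀ u w1 w2 w3 : ℕ, u ∉ p → u < w1 → w1 < w2 → w2 < w3 → w1 ∈ p → w2 ∈ p → w3 ∈ p →
      Sep p w1 w2 → Sep p w2 w3 → False

/-- PS-2 -/
def AccSortableStm : Prop := ∀ (n : ℕ) (l : List ℕ), AccStart n l → SortableL n l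

/-- PS-3 -/
def CprimeStm : Prop :=
  ∀ (n : ℕ) (p rest : List ℕ), (p ++ rest).Perm (List.range n) → SortableL n (p ++ rest) →
    SimpleL (p ++ rest) → ∀ m g r h z : ℕ, 1 ≤ g → 1 ≤ h → m + g + r + h = n →
      (∀ v, v ∈ p ↔ v < m ∨ (m + g ≤ v ∧ v < m + g + r)) →
      m + g ≤ z → z + 1 < m + g + r → [z, z + 1].Sublist p → False

/-- PS-0 -/
def InvStepStm : Prop :=
  ∀ (n : ℕ) (p : List ℕ) (s s' : St) (v : ℕ), Inv n p s → Step s v s' → Inv n (p ++ [v]) s'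

/-- one-step statement for a state -/
def StepExists (s : St) : Prop :=
  ∀ (n : ℕ) (p rest : List ℕ), (p ++ rest).Perm (List.range n) → SortableL n (p ++ rest) →
    SimpleL (p ++ rest) → Inv n p s → ∃ (v : ℕ) (rest' : List ℕ) (s' : St),
      rest = v :: rest' ∧ Step s v s'

/-- PS-4 -/
def StepAStm : Prop := ∀ q m g r h, StepExists (A q m g r h)

/-- PS-5 -/
def StepTStm : Prop := ∀ q m g r k t h, StepExists (T q m g r k t h)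

/-- PS-6 -/
def StepBStm : Prop := ∀ q m g r k t, StepExists (B q m g r k t)

/-- PS-7: the unread values -/
def UnreadStm : Prop :=
  ∀ (s : St) (l : List ℕ), Acc s l → l.Nodup ∧ ∀ v, v ∈ l ↔ Unread s v

/-- PS-7 -/
def Ex1Stm : Prop :=
  (∀ (c s' : List ℕ) (q : Q) (m g r k t h : ℕ), q ≠ Q.x → 1 ≤ g →
    Acc (T q m g r k t h) (c ++ s') → (∀ v ∈ c, m ≤ v ∧ v < m + g) → c.length < g) ∧
  (∀ (c s' : List ℕ) (q : Q) (m g r k t : ℕ), q ≠ Q.x → 1 ≤ g →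
    Acc (B q m g r k t) (c ++ s') → (∀ v ∈ c, m ≤ v ∧ v < m + g) → c.length < g)

/-- PS-7 -/
def Ex2Stm : Prop :=
  ∀ (c s' : List ℕ) (q : Q) (m g r k t h : ℕ),
    Acc (T q m g r k t h) (c ++ s') → m ∉ c → m + g + r ∉ c

/-- PS-7 -/
def Ex3Stm : Prop :=
  (∀ (c s' : List ℕ) (q : Q) (m g r h : ℕ), 1 ≤ g →
    Acc (A q m g r h) (c ++ s') → (∀ v ∈ c, m ≤ v ∧ v < m + g) → c.length < g) ∧
  (∀ (c s' : List ℕ) (q : Q) (m g r k t h : ℕ), 1 ≤ g → 1 ≤ k →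
    Acc (T q m g r k t h) (c ++ s') →
    (∀ v ∈ c, (m ≤ v ∧ v < m + g) ∨ (m + g + r ≤ v ∧ v < m + g + r + k)) → c.length < g + k)

/-- PS-7 -/
def Ex5Stm : Prop :=
  ∀ (c s' : List ℕ) (q : Q) (m g r k t h : ℕ), q ≠ Q.x → 1 ≤ g → 1 ≤ k →
    Acc (T q m g r k t h) (c ++ s') →
    (∀ v ∈ c, (m ≤ v ∧ v < m + g) ∨ (m + g + r ≤ v ∧ v < m + g + r + k)) →
    m + g + r + k - 1 ∉ c → c.length < g

/-- block statement for a state -/
def NoBlock (s : St) : Prop :=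
  ∀ (n : ℕ) (c s' : List ℕ) (x : ℕ), Dim n s → Acc s (c ++ s') → 2 ≤ c.length →
    (∀ v, v ∈ c ↔ x ≤ v ∧ v < x + c.length) → False

/-- PS-8 -/
def BlockAStm : Prop := ∀ q m g r h, NoBlock (A q m g r h)

/-- PS-9 -/
def BlockTBStm : Prop :=
  (∀ q m g r k t h, NoBlock (T q m g r k t h)) ∧ (∀ q m g r k t, NoBlock (B q m g r k t))

/-- PS-10 -/
def FiniteStm : Prop := ∀ s : St, {l | Acc s l}.Finite

/-- The recurrences for a function `c` on states. -/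
def RecA (c : St → ℕ) : Prop :=
  ∀ (q : Q) (m g r h : ℕ), c (A q m (g + 1) r (h + 1)) =
    (if q ≠ Q.o then sh (fun g' => c (A Q.o (m + 1) (g' + 1) r (h + 1))) g else 0) +
    (if q ≠ Q.a1 ∧ q ≠ Q.a2 then sh (fun g' => c (A Q.a2 m (g' + 1) (r + 1) (h + 1))) g else 0) +
    sh (sh (fun d => ∑ p ∈ Finset.HasAntidiagonal.antidiagonal d,
      c (T Q.a1 m (p.1 + 1) 1 (p.2 + 1) r (h + 1)))) g +
    sh (sh (fun d => ∑ p ∈ Finset.HasAntidiagonal.antidiagonal d,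
      c (T Q.x m (g + 1) r (p.1 + 1) 1 (p.2 + 1)))) h +
    sh (fun h' => c (B Q.x m (g + 1) r (h' + 1) 1)) h +
    (if g = 0 ∧ h = 0 ∧ q ≠ Q.a1 then 1 else 0)

def RecT (c : St → ℕ) : Prop :=
  ∀ (q : Q) (m g r k t h : ℕ), c (T q m (g + 1) r (k + 1) t (h + 1)) =
    (if q ≠ Q.o then sh (fun g' => c (T Q.o (m + 1) (g' + 1) r (k + 1) t (h + 1))) g else 0) +
    (if q ≠ Q.a1 ∧ q ≠ Q.a2 then
      sh (fun g' => c (T Q.a2 m (g' + 1) (r + 1) (k + 1) t (h + 1))) g else 0) +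
    (if q ≠ Q.x then sh (fun k' => c (T Q.x m (g + 1) r (k' + 1) (t + 1) (h + 1))) k else 0) +
    (if g = 0 ∧ q = Q.x then c (A Q.x (m + 1 + r) (k + 1) t (h + 1)) else 0)

def RecB (c : St → ℕ) : Prop :=
  ∀ (q : Q) (m g r k t : ℕ), c (B q m (g + 1) r (k + 1) t) =
    (if q ≠ Q.o then sh (fun g' => c (B Q.o (m + 1) (g' + 1) r (k + 1) t)) g else 0) +
    (if q ≠ Q.a1 ∧ q ≠ Q.a2 then
      sh (fun g' => c (B Q.a2 m (g' + 1) (r + 1) (k + 1) t)) g else 0) +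
    (if q ≠ Q.x then sh (fun k' => c (B Q.x m (g + 1) r (k' + 1) (t + 1))) k else 0) +
    (if g = 0 ∧ k = 0 ∧ (q = Q.x ∨ ((q = Q.o ∨ q = Q.a2) ∧ 0 < m)) then 1 else 0)

/-- PS-10 -/
def RecStm : Prop := RecA cnt ∧ RecT cnt ∧ RecB cnt

/-- PS-11 -/
def SumStm : Prop :=
  ∀ c : St → ℕ, RecA c → RecT c → RecB c → ∀ n, 3 ≤ n →
    ∑ p ∈ Finset.HasAntidiagonal.antidiagonal (n - 3), c (A Q.a1 0 (p.1 + 1) 1 (p.2 + 1)) =
      if Odd n then Nat.fib (2 * n - 5) - 1 else Nat.fib (2 * n - 5)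

/-- PS-12 -/
def TransferStm : Prop :=
  ∀ n, a n = Set.ncard {l : List ℕ | l.Perm (List.range n) ∧ SimpleL l ∧ SortableL n l}

/-- PS-13 (assembly) -/
def StartCountStm : Prop :=
  ∀ n, 3 ≤ n → Set.ncard {l | AccStart n l} =
    ∑ p ∈ Finset.HasAntidiagonal.antidiagonal (n - 3), cnt (A Q.a1 0 (p.1 + 1) 1 (p.2 + 1))

end PopSt
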